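import Pool.Agent.Lib.MP_ba4752_ag.FF

/-! Function fields of one variable over an algebraically closed field of any characteristic:
divisors of functions. -/

set_option linter.unusedSectionVars false

open Polynomial IntermediateField Module

namespace Pool.Agent.Lib.PK1.FF

open Pool.Agent.Lib.MP_e06174_ag Pool.Agent.Lib.MP_ba4752_ag Place

variable {K F : Type*} [Field K] [Field F] [Algebra K F] {t : F}

theorem trdeg_eq_one (h : IsCoord K t) : Algebra.trdeg K F = 1 := by
  have h1 : AlgebraicIndependent K (fun _ : Unit => t) :=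
    algebraicIndependent_unique_type_iff.2 h.trans
  have h2 : IsTranscendenceBasis K (fun _ : Unit => t) := by
    refine h1.isTranscendenceBasis_iff_isAlgebraic.2 ?_
    rw [Set.range_const, ← IntermediateField.isAlgebraic_adjoin_iff_top]
    have := h.fin
    infer_instance
  simpa using h2.lift_cardinalMk_eq_trdeg.symm

theorem essFiniteType (h : IsCoord K t) : Algebra.EssFiniteType K F := by
  have := h.fin
  have : Algebra.EssFiniteType K K⟮t⟯ := IntermediateField.essFiniteType_iff.2
    (IntermediateField.fg_adjoin_of_finite (Set.finite_singleton t))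
  exact Algebra.EssFiniteType.comp K K⟮t⟯ F

/-- a finitely generated field of transcendence degree one has a coordinate -/
theorem exists_coord [PerfectField K] [Algebra.EssFiniteType K F] (h : Algebra.trdeg K F = 1) :
    ∃ t : F, IsCoord K t :=
  (exists_sepCoord h).imp fun _ h => h.toIsCoord

theorem exists_sep [PerfectField K] (h : IsCoord K t) : ∃ x : F, SepCoord K x :=
  have := essFiniteType h
  exists_sepCoord (trdeg_eq_one h)

/-- the fundamental inequality -/
theorem sum_zero_le (h : IsCoord K t) (T : Finset (Place K F)) (hT : ∀ P ∈ T, 0 < P.ord t) :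
    ∑ P ∈ T, P.ord t ≤ finrank K⟮t⟯ F := by
  classical
  obtain ⟨_, _, _, _, _, _, rfl, h2⟩ := h.setup
  set x := algebraMap K[X] F X with hx
  choose u hu0 hu1 hu2 using fun (P : Place K F) (j : ℕ) => approx P T j (∑ Q ∈ T, Q.ord x)
  have hle : ∀ P ∈ T, P.ord x ≤ ∑ Q ∈ T, Q.ord x := fun P hP =>
    Finset.single_le_sum (f := fun Q : Place K F => Q.ord x) (fun Q hQ => (hT Q hQ).le) hP
  let I := Σ P : T, Fin (P.1.ord x).toNat
  have key : ∀ g : I → K[X], ∑ i, g i • u i.1.1 i.2 = 0 → ∀ i, X ∣ g i := by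
    intro g hg
    by_contra hne
    push Not at hne
    obtain ⟨⟨P, j0⟩, hj0⟩ := hne
    obtain ⟨j, hj, hmin⟩ := (Finset.univ.filter fun j => ¬ X ∣ g ⟨P, j⟩).exists_min_image
      (fun j => (j : ℕ)) ⟨j0, by simpa using hj0⟩
    have hj' : ¬ X ∣ g ⟨P, j⟩ := by simpa using hj
    have hx1 : P.1.At x 0 := by simpa [At] using ge_of_le (hT P.1 P.2)
    have hjl : (j : ℤ) < P.1.ord x := by have := j.2; omega
    have hu : aeval x (g ⟨P, j⟩) ≠ 0 ∧ P.1.ord (aeval x (g ⟨P, j⟩)) = 0 :=
      ord_eq_zero_of_ge_sub_const (by rwa [X_dvd_iff, coeff_zero_eq_eval_zero] at hj')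
        (hx1.aeval _)
    have e : ∀ (q : K[X]) (y : F), q • y = aeval x q * y := fun q y => by
      rw [Algebra.smul_def, alg_eq_aeval]
    rw [← Finset.add_sum_erase _ _ (Finset.mem_univ ⟨P, j⟩)] at hg
    refine (ord_add_of_ge (p := P.1) ?_ (Ge.sum fun i hi => ?_)).1 hg
    · rw [e]; exact mul_ne_zero hu.1 (hu0 _ _)
    · rw [e, e, P.1.ord_mul hu.1 (hu0 _ _), hu.2, hu1, zero_add]
      obtain ⟨Q, l⟩ := i
      dsimp only
      by_cases hQ : Q = P
      · subst hQ
        by_cases hl : X ∣ g ⟨Q, l⟩
        · obtain ⟨r, hr⟩ := hl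
          rw [hr, map_mul, aeval_X]
          refine ((ge_ord x).mul (hx1.ge_zero.aeval r)).mul' (ge_ord _) ?_
          rw [hu1]; omega
        · have h3 := hmin l (by simpa using hl)
          have h4 : l ≠ j := fun h => (Finset.mem_erase.1 hi).1 (by rw [h])
          have h5 : (l : ℕ) ≠ j := fun h => h4 (Fin.ext h)
          refine (hx1.ge_zero.aeval _).mul' (ge_ord _) ?_
          rw [hu1]; omega
      · refine (hx1.ge_zero.aeval _).mul' (ge_ord _) ?_
        have := hu2 Q.1 l P.1 P.2 fun h => hQ (Subtype.ext h.symm)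
        have := hle P.1 P.2
        omega
  have hli : LinearIndependent K[X] fun i : I => u i.1.1 i.2 := by
    rw [Fintype.linearIndependent_iff]
    have hx0 : x ≠ 0 := ne_zero_of_transcendental h.trans
    have h3 : ∀ n : ℕ, ∀ g : I → K[X], ∑ i, g i • u i.1.1 i.2 = 0 → ∀ i, X ^ n ∣ g i := by
      intro n
      induction n with
      | zero => intro g _ i; simp
      | succ n ih =>
        intro g hg i
        choose g' hg' using key g hg
        rw [hg' i, pow_succ']
        refine mul_dvd_mul_left _ (ih g' (mul_left_cancel₀ hx0 ?_) i)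
        rw [mul_zero, ← hg, Finset.mul_sum]
        refine Finset.sum_congr rfl fun l _ => ?_
        rw [hg' l, mul_smul, Algebra.smul_def X]
    intro g hg i
    by_contra h0
    have := natDegree_le_of_dvd (h3 ((g i).natDegree + 1) g hg i) h0
    rw [natDegree_X_pow] at this
    omega
  have h4 := ((LinearIndependent.iff_fractionRing K[X] (RatFunc K)).1 hli).fintype_card_le_finrank
  rw [h2, Fintype.card_sigma] at h4
  simp only [Fintype.card_fin] at h4
  rw [Finset.sum_coe_sort T fun P => (P.ord x).toNat] at h4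
  calc _ = ((∑ P ∈ T, (P.ord x).toNat : ℕ) : ℤ) := by
        push_cast
        exact Finset.sum_congr rfl fun P hP => (Int.toNat_of_nonneg (hT P hP).le).symm
    _ ≤ _ := by exact_mod_cast h4

theorem adjoin_inv (t : F) : K⟮t⁻¹⟯ = K⟮t⟯ := by
  refine le_antisymm ?_ ?_ <;> rw [adjoin_simple_le_iff]
  · exact inv_mem (mem_adjoin_simple_self K t)
  · simpa using inv_mem (mem_adjoin_simple_self K t⁻¹)

theorem adjoin_sub (t : F) (a : K) : K⟮t - algebraMap K F a⟯ = K⟮t⟯ := by
  refine le_antisymm ?_ ?_ <;> rw [adjoin_simple_le_iff]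
  · exact sub_mem (mem_adjoin_simple_self K t) (IntermediateField.algebraMap_mem _ a)
  · simpa using add_mem (mem_adjoin_simple_self K (t - algebraMap K F a))
      (IntermediateField.algebraMap_mem _ a)

theorem coord_inv (h : IsCoord K t) : IsCoord K t⁻¹ :=
  h.of_transcendental fun h1 => h.trans (IsAlgebraic.inv_iff.1 h1)

theorem coord_sub (h : IsCoord K t) (a : K) : IsCoord K (t - algebraMap K F a) :=
  h.of_transcendental fun h1 => h.trans (by simpa using h1.add (isAlgebraic_algebraMap a))

theorem sum_pole_le (h : IsCoord K t) (T : Finset (Place K F)) (hT : ∀ P ∈ T, P.ord t < 0) :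
    ∑ P ∈ T, -P.ord t ≤ finrank K⟮t⟯ F := by
  have := sum_zero_le (coord_inv h) T fun P hP => by have := hT P hP; rw [ord_inv]; omega
  rw [adjoin_inv] at this
  simpa only [ord_inv] using this

theorem finite_zero (h : IsCoord K t) : {P : Place K F | 0 < P.ord t}.Finite := by
  by_contra hinf
  obtain ⟨T, hT, hc⟩ := Set.Infinite.exists_subset_card_eq hinf (finrank K⟮t⟯ F + 1)
  have h1 := sum_zero_le h T fun P hP => hT hP
  have h2 : (T.card : ℤ) ≤ ∑ P ∈ T, P.ord t := by
    rw [Finset.card_eq_sum_ones]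
    push_cast
    exact Finset.sum_le_sum fun P hP => hT hP
  omega

theorem finite_pole (h : IsCoord K t) : {P : Place K F | P.ord t < 0}.Finite :=
  (finite_zero (coord_inv h)).subset fun P hP => by
    simp only [Set.mem_ofPred_eq, ord_inv] at hP ⊢; omega

variable [IsAlgClosed K]

theorem const_or_coord (h : IsCoord K t) (z : F) : (∃ c, z = algebraMap K F c) ∨ IsCoord K z := by
  by_cases h1 : ∃ c, z = algebraMap K F c
  · exact .inl h1
  · push Not at h1
    exact .inr (h.of_transcendental (transcendental_of_ne_const h1))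

/-- a function has finitely many zeros and poles -/
theorem finite_support (h : IsCoord K t) (z : F) : {P : Place K F | P.ord z ≠ 0}.Finite := by
  rcases const_or_coord h z with ⟨c, rfl⟩ | h1
  · simp
  · exact ((finite_zero h1).union (finite_pole h1)).subset fun P hP => by
      simp only [Set.mem_ofPred_eq, Set.mem_union] at hP ⊢; omega

theorem finite_support' (h : IsCoord K t) (z : F) :
    (Function.support fun P : Place K F => P.ord z).Finite := finite_support h z

theorem finite_not_ge (h : IsCoord K t) (z : F) : {P : Place K F | ¬ P.Ge 0 z}.Finite :=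
  (finite_support h z).subset fun _ hP => (not_ge_iff.1 hP).2.ne

theorem finite_ge_one (h : IsCoord K t) {z : F} (hz : z ≠ 0) :
    {P : Place K F | P.Ge 1 z}.Finite :=
  (finite_support h z).subset fun P hP => by
    have := Ge.le hP hz
    simp only [Set.mem_ofPred_eq]; omega

/-- values exist -/
theorem exists_at (h : IsCoord K t) {P : Place K F} {z : F} (hz : P.Ge 0 z) : ∃ c, P.At z c :=
  ⟨_, h.at_cen hz⟩

/-- every proper valuation ring containing the constants is the ring of a place -/
theorem exists_place (h : IsCoord K t) (O : ValuationSubring F) (hO : O ≠ ⊤)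
    (hK : ∀ c : K, algebraMap K F c ∈ O) : ∃ P : Place K F, P.O = O := by
  obtain ⟨x, hx⟩ := exists_sep h
  exact hx.exists_place O hO hK

/-- a function without poles is constant -/
theorem const (h : IsCoord K t) (z : F) (hz : ∀ P : Place K F, P.Ge 0 z) :
    ∃ c, z = algebraMap K F c := by
  obtain ⟨x, hx⟩ := exists_sep h
  exact hx.const z hz

theorem exists_pole (h : IsCoord K t) : ∃ P : Place K F, P.ord t < 0 := by
  by_contra h1
  push Not at h1
  obtain ⟨c, hc⟩ := const h t fun P => ge_of_le (h1 P)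
  exact h.trans (hc ▸ isAlgebraic_algebraMap c)

theorem exists_place_at (h : IsCoord K t) (a : K) : ∃ P : Place K F, P.At t a := by
  obtain ⟨P, hP⟩ := exists_pole (coord_inv (coord_sub h a))
  rw [ord_inv] at hP
  exact ⟨P, ge_of_le (by omega)⟩

theorem infinite_place (h : IsCoord K t) : Infinite (Place K F) := by
  choose P hP using exists_place_at h
  exact Infinite.of_injective P fun a b hab => (hP a).unique (hab ▸ hP b)

/-- the Riemann inequality for effective divisors -/
theorem finrank_le_nat (h : IsCoord K t) (T : Finset (Place K F)) (n : Place K F → ℕ)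
    (V : Submodule K F) [FiniteDimensional K V] (hV : ∀ z ∈ V, ∀ P ∈ T, P.Ge (-n P) z)
    (hV' : ∀ z ∈ V, ∀ P ∉ T, P.Ge 0 z) : finrank K V ≤ ∑ P ∈ T, n P + 1 := by
  obtain ⟨W, h1, h2, h3⟩ := finrank_le_sum h T n V fun P hP z hz => hV z hz P hP
  have h4 : W ≤ K ∙ (1 : F) := fun z hz => by
    obtain ⟨c, rfl⟩ := const h z fun P => by
      by_cases hP : P ∈ T
      · exact h2 P hP hz
      · exact hV' z (h1 hz) P hP
    rw [Algebra.algebraMap_eq_smul_one]
    exact Submodule.smul_mem _ _ (Submodule.mem_span_singleton_self _)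
  have := Submodule.finrank_mono h4
  rw [finrank_span_singleton one_ne_zero] at this
  omega

/-- the degree of the polar divisor -/
theorem sum_pole (h : IsCoord K t) (T : Finset (Place K F)) (hT : ∀ P, P ∈ T ↔ P.ord t < 0) :
    ∑ P ∈ T, -P.ord t = finrank K⟮t⟯ F := by
  classical
  refine le_antisymm (sum_pole_le h T fun P => (hT P).1) ?_
  have hc := h
  obtain ⟨_, _, _, _, _, _, rfl, h0⟩ := h.setup
  set x := algebraMap K[X] F X with hx
  let b := Module.finBasis (RatFunc K) F
  choose q hq hq' using fun i => exists_multiple hc (b i)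
  have h1 : LinearIndependent K[X] fun i => aeval x (q i) * b i := by
    refine LinearIndependent.restrict_scalars (K := RatFunc K) ?_ ?_
    · simpa [← Algebra.algebraMap_eq_smul_one] using IsFractionRing.injective K[X] (RatFunc K)
    · have := b.linearIndependent.units_smul fun i => Units.mk0
        (algebraMap K[X] (RatFunc K) (q i)) (by simpa using hq i)
      convert this using 2 with i
      simp [Units.smul_def, ← alg_eq_aeval, x, Algebra.smul_def, ← IsScalarTower.algebraMap_apply]
  let c : Place K F → ℕ := fun p => ∑ i, (p.ord (aeval x (q i) * b i)).natAbs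
  let M := ∑ p ∈ T, c p + 2
  have h2 := linearIndependent_smul
    ((basisMonomials K).linearIndependent.comp (fun j : Fin M => (j : ℕ)) Fin.val_injective) h1
  let V := Submodule.span K (Set.range fun s : Fin M × Fin (finrank (RatFunc K) F) =>
    (basisMonomials K ∘ fun j : Fin M => (j : ℕ)) s.1 • (aeval x (q s.2) * b s.2))
  have : FiniteDimensional K V := FiniteDimensional.span_of_finite K (Set.finite_range _)
  have h3 : finrank K V = M * finrank (RatFunc K) F := (finrank_span_eq_card h2).trans (by simp)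
  have h4 : ∀ (p : Place K F) (n : ℤ), (∀ j < M, ∀ i, p.Ge n (x ^ j * (aeval x (q i) * b i))) →
      V ≤ fil p n := by
    intro p n hn
    refine Submodule.span_le.2 ?_
    rintro _ ⟨s, rfl⟩
    convert hn s.1 s.1.2 s.2
    simp [Algebra.smul_def, ← X_pow_eq_monomial, fil, x]
  have hd := finrank_le_nat hc T (fun p => M * (p.ord x).natAbs + c p) V
    (fun z hz p hp => h4 p _ (fun j hj i => by
      have h5 : p.ord x < 0 := (hT p).1 hp
      refine (ge_ord _).mul' (ge_ord _) ?_
      have h6 : (p.ord (aeval x (q i) * b i)).natAbs ≤ c p :=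
        Finset.single_le_sum (f := fun i => (p.ord (aeval x (q i) * b i)).natAbs)
          (fun _ _ => Nat.zero_le _) (Finset.mem_univ i)
      have h7 : (j : ℤ) ≤ M := by omega
      rw [ord_pow]
      push_cast
      rw [abs_of_neg h5]
      nlinarith [neg_abs_le (p.ord (aeval x (q i) * b i)), Int.natCast_natAbs
        (p.ord (aeval x (q i) * b i)), (Int.ofNat_le.2 h6)]) hz)
    (fun z hz p hp => by
      have h7 : p.Ge 0 x := ge_of_le (not_lt.1 fun h => hp ((hT p).2 h))
      exact h4 p 0 (fun j _ i => (h7.pow j).mul' (hq' i p h7) (by simp)) hz)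
  rw [Finset.sum_add_distrib, ← Finset.mul_sum, h3, h0] at hd
  have h7 : M = ∑ p ∈ T, c p + 2 := rfl
  have h8 : finrank K⟮x⟯ F ≤ ∑ p ∈ T, (p.ord x).natAbs := by
    by_contra h9
    nlinarith
  calc _ ≤ ((∑ p ∈ T, (p.ord x).natAbs : ℕ) : ℤ) := by exact_mod_cast h8
    _ = _ := by
      push_cast
      exact Finset.sum_congr rfl fun p hp => abs_of_neg ((hT p).1 hp)

/-- the degree of the zero divisor -/
theorem sum_zero (h : IsCoord K t) (T : Finset (Place K F)) (hT : ∀ P, P ∈ T ↔ 0 < P.ord t) :
    ∑ P ∈ T, P.ord t = finrank K⟮t⟯ F := by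
  have := sum_pole (coord_inv h) T fun P => by rw [hT, ord_inv]; omega
  rw [adjoin_inv] at this
  simpa only [ord_inv, neg_neg] using this

/-- the degree of a fibre -/
theorem sum_at (h : IsCoord K t) (a : K) (T : Finset (Place K F)) (hT : ∀ P, P ∈ T ↔ P.At t a) :
    ∑ P ∈ T, P.ord (t - algebraMap K F a) = finrank K⟮t⟯ F := by
  rw [← adjoin_sub t a]
  refine sum_zero (coord_sub h a) T fun P => ?_
  rw [hT, At, ge_iff (sub_const_ne_zero h.trans a)]; omega

theorem finsum_pole (h : IsCoord K t) :
    ∑ᶠ P : Place K F, max (-P.ord t) 0 = (finrank K⟮t⟯ F : ℤ) := by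
  rw [← sum_pole h (finite_pole h).toFinset fun P => by simp,
    finsum_eq_sum_of_support_subset (s := (finite_pole h).toFinset) _ fun P hP => by
      simp only [Function.mem_support, Set.Finite.coe_toFinset, Set.mem_ofPred_eq] at hP ⊢; omega]
  exact Finset.sum_congr rfl fun P hP => by
    have : P.ord t < 0 := by simpa using hP
    omega

theorem finsum_zero (h : IsCoord K t) :
    ∑ᶠ P : Place K F, max (P.ord t) 0 = (finrank K⟮t⟯ F : ℤ) := by
  have := finsum_pole (coord_inv h)
  rw [adjoin_inv] at this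
  simpa only [ord_inv, neg_neg] using this

/-- a principal divisor has degree zero -/
theorem sum_ord (h : IsCoord K t) (z : F) (T : Finset (Place K F))
    (hT : ∀ P ∉ T, P.ord z = 0) : ∑ P ∈ T, P.ord z = 0 := by
  classical
  rcases const_or_coord h z with ⟨c, rfl⟩ | h1
  · simp
  have h2 := sum_zero h1 (T.filter fun P => 0 < P.ord z) fun P => by
    rw [Finset.mem_filter]
    exact ⟨fun h => h.2, fun h => ⟨by by_contra h3; have := hT P h3; omega, h⟩⟩
  have h3 := sum_pole h1 (T.filter fun P => P.ord z < 0) fun P => by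
    rw [Finset.mem_filter]
    exact ⟨fun h => h.2, fun h => ⟨by by_contra h3; have := hT P h3; omega, h⟩⟩
  rw [Finset.sum_filter] at h2 h3
  rw [← sub_self (finrank K⟮z⟯ F : ℤ)]
  nth_rewrite 1 [← h2]
  rw [← h3, ← Finset.sum_sub_distrib]
  exact Finset.sum_congr rfl fun P _ => by split_ifs <;> omega

theorem finsum_ord (h : IsCoord K t) (z : F) : ∑ᶠ P : Place K F, P.ord z = 0 := by
  rw [finsum_eq_sum _ (finite_support' h z)]
  exact sum_ord h z _ fun P hP => by simpa using hP

/-- the Riemann inequality -/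
theorem finrank_le (h : IsCoord K t) (T : Finset (Place K F)) (n : Place K F → ℤ)
    (V : Submodule K F) [FiniteDimensional K V] (h0 : V ≠ ⊥)
    (hV : ∀ z ∈ V, ∀ P ∈ T, P.Ge (-n P) z) (hV' : ∀ z ∈ V, ∀ P ∉ T, P.Ge 0 z) :
    (finrank K V : ℤ) ≤ ∑ P ∈ T, n P + 1 := by
  classical
  obtain ⟨f, hf, hf0⟩ := V.exists_mem_ne_zero_of_ne_bot h0
  let T' := T ∪ (finite_support h f).toFinset
  let n' : Place K F → ℤ := fun P => (if P ∈ T then n P else 0) + P.ord f
  have h1 : ∀ z ∈ V, ∀ P : Place K F, P.Ge (-if P ∈ T then n P else 0) z := fun z hz P => by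
    split_ifs with hP
    · exact hV z hz P hP
    · simpa using hV' z hz P hP
  have h2 : ∀ P, 0 ≤ n' P := fun P => by
    have := (h1 f hf P).le hf0
    simp only [n']; omega
  let e : F ≃ₗ[K] F := LinearEquiv.ofBijective (LinearMap.mulLeft K f⁻¹)
    (mulLeft_bijective₀ _ (inv_ne_zero hf0))
  have h3 : ∀ z ∈ V.map (e : F →ₗ[K] F), ∀ P : Place K F, P.Ge (-n' P) z := by
    rintro _ ⟨z, hz, rfl⟩ P
    refine (ge_ord f⁻¹).mul' (h1 z hz P) ?_
    simp only [n', ord_inv]; omega
  have h4 := finrank_le_nat h T' (fun P => (n' P).toNat) (V.map (e : F →ₗ[K] F))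
    (fun z hz P _ => by rw [Int.toNat_of_nonneg (h2 P)]; exact h3 z hz P)
    (fun z hz P hP => by
      have h5 : P ∉ T ∧ P.ord f = 0 := by simpa [T'] using hP
      simpa [n', h5] using h3 z hz P)
  rw [LinearEquiv.finrank_map_eq] at h4
  have h5 : ∑ P ∈ T', n' P = ∑ P ∈ T, n P := by
    rw [Finset.sum_add_distrib, sum_ord h f T' fun P hP => by
      have h5 : P ∉ T ∧ P.ord f = 0 := by simpa [T'] using hP
      exact h5.2, add_zero, Finset.sum_ite_mem, Finset.union_inter_cancel_left]
  calc _ ≤ ((∑ P ∈ T', (n' P).toNat + 1 : ℕ) : ℤ) := by exact_mod_cast h4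
    _ = _ := by
      push_cast
      rw [← h5, Finset.sum_congr rfl fun P _ => Int.toNat_of_nonneg (h2 P)]

/-- the Riemann-Roch spaces are finite dimensional -/
theorem finiteDimensional (h : IsCoord K t) (T : Finset (Place K F)) (n : Place K F → ℤ)
    (V : Submodule K F) (hV : ∀ z ∈ V, ∀ P ∈ T, P.Ge (-n P) z)
    (hV' : ∀ z ∈ V, ∀ P ∉ T, P.Ge 0 z) : FiniteDimensional K V := by
  by_contra hinf
  obtain ⟨v, hv⟩ := exists_linearIndependent_of_le_rank (R := K) (M := V)
    (n := ∑ P ∈ T, (n P).toNat + 2)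
    (Cardinal.natCast_lt_aleph0.le.trans (not_lt.1 (mt rank_lt_aleph0_iff.1 hinf)))
  have hv' := hv.map' V.subtype V.ker_subtype
  have h1 : Submodule.span K (Set.range (V.subtype ∘ v)) ≤ V :=
    Submodule.span_le.2 (by rintro _ ⟨i, rfl⟩; exact (v i).2)
  have : FiniteDimensional K (Submodule.span K (Set.range (V.subtype ∘ v))) :=
    FiniteDimensional.span_of_finite K (Set.finite_range _)
  have h2 := finrank_le_nat h T (fun P => (n P).toNat) _
    (fun z hz P hP => (hV z (h1 hz) P hP).mono (by omega)) fun z hz => hV' z (h1 hz)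
  rw [finrank_span_eq_card hv', Fintype.card_fin] at h2
  omega

/-- a rational character of `F^*` that kills the constants is a linear form in the divisor -/
theorem exists_coef (h : IsCoord K t) (φ : F → ℚ)
    (hm : ∀ x y, x ≠ 0 → y ≠ 0 → φ (x * y) = φ x + φ y)
    (hK : ∀ c : K, c ≠ 0 → φ (algebraMap K F c) = 0) :
    ∃ c : Place K F → ℚ, ∀ z, z ≠ 0 → φ z = ∑ᶠ P : Place K F, (P.ord z : ℚ) * c P := by
  let d : Additive Fˣ →+ (Place K F →₀ ℤ) := AddMonoidHom.mk'
    (fun z => Finsupp.ofSupportFinite (fun P => P.ord (z.toMul : F)) (finite_support' h _))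
    fun a b => Finsupp.ext fun P => P.ord_mul a.toMul.ne_zero b.toMul.ne_zero
  let ψ : Additive Fˣ →+ ℚ := AddMonoidHom.mk' (fun z => φ (z.toMul : F))
    fun a b => hm _ _ a.toMul.ne_zero b.toMul.ne_zero
  have hker : d.rangeRestrict.ker ≤ ψ.ker := fun z hz => by
    have h1 : d z = 0 := congrArg Subtype.val hz
    obtain ⟨c, hc⟩ := const h (z.toMul : F) fun P => ge_of_le (DFunLike.congr_fun h1 P).ge
    change φ _ = 0
    rw [hc]
    exact hK c fun h0 => z.toMul.ne_zero (by rw [hc, h0, map_zero])
  obtain ⟨χ, hχ⟩ := (Module.Baer.of_divisible ℚ).extension_property_addMonoidHom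
    d.range.subtype Subtype.val_injective
    (d.rangeRestrict.liftOfSurjective d.rangeRestrict_surjective ⟨ψ, hker⟩)
  refine ⟨fun P => χ (Finsupp.single P 1), fun z hz => ?_⟩
  have h1 : φ z = χ (d (Additive.ofMul (Units.mk0 z hz))) :=
    ((DFunLike.congr_fun hχ (d.rangeRestrict (Additive.ofMul (Units.mk0 z hz)))).trans
      (d.rangeRestrict.liftOfRightInverse_comp_apply _ _ ⟨ψ, hker⟩ _)).symm
  rw [h1, ← Finsupp.sum_single (d _), Finsupp.sum, map_sum,
    finsum_eq_sum_of_support_subset (s := (d (Additive.ofMul (Units.mk0 z hz))).support)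
      _ fun P hP => Finsupp.mem_support_iff.2 fun h0 => hP (by
        have : P.ord z = 0 := h0
        simp [this])]
  refine Finset.sum_congr rfl fun P _ => ?_
  rw [← Finsupp.smul_single_one, map_zsmul, zsmul_eq_mul]
  rfl

end Pool.Agent.Lib.PK1.FF
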