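import Pool.Agent.Lib.PK1.Blue
import Pool.Agent.Lib.PK1.BT54

/-! The block BT. -/

namespace Pool.Agent.Lib.PK1

theorem stBT : St_BT := fun _ _ _ _ _ _ _ h1 h2 h3 h4 h5 θ _ _ ha hb a0 b0 =>
  bt_simple ⟨h1, h2, h3⟩ h4 h5 θ ha hb a0 b0

end Pool.Agent.Lib.PK1
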