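import Pool.Agent.Lib.PK1.Blue
import Pool.Agent.Lib.PK1.TRD

namespace Pool.Agent.Lib.PK1

theorem stTRD : St_TRD := by
  intro K Ω J _ _ _ _ τ hτ a s hs l halg hl hrel
  have := TRD.card_le τ hτ s l hl halg hrel
  simp at this
  omega

end Pool.Agent.Lib.PK1
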