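import Pool.Agent.Lib.PK1.CLWB
import Pool.Agent.Lib.PK1.CLWC

/-! Chebotarev count for a polynomial with full Galois group. -/

namespace Pool.Agent.Lib.PK1.Cnt

theorem stLW : St_LW := stLWC stLWB

end Pool.Agent.Lib.PK1.Cnt
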