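import Pool.Agent.Lib.PK1.CSUB

/-! Block SPLIT: the number of totally split rational members through rational places. -/

set_option linter.unusedSectionVars false

open Polynomial

namespace Pool.Agent.Lib.PK1.Cnt

open Pool.Agent.Lib.MP_e06174_ag

namespace SPLIT64

theorem mem_of_pow {K : Type} [Field K] (k : Subfield K) [Finite k] {c : K}
    (hc : c ^ Nat.card k = c) : c ∈ k := by
  have := Fintype.ofFinite k
  have h0 : (X ^ Fintype.card k - X : k[X]) ≠ 0 :=
    FiniteField.X_pow_card_sub_X_ne_zero k Fintype.one_lt_card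
  have h1 : (X ^ Fintype.card k - X : k[X]).Splits := by
    rw [splits_iff_card_roots, FiniteField.roots_X_pow_card_sub_X,
      FiniteField.X_pow_card_sub_X_natDegree_eq k Fintype.one_lt_card]
    rfl
  obtain ⟨d, rfl⟩ := h1.mem_range_of_isRoot h0 (i := k.subtype) (x := c)
    (by simp [← Nat.card_eq_fintype_card, hc])
  exact d.2

theorem roots_iff {K ι : Type} [Field K] (k : Subfield K) (T : Finset ι) (c : ι → K)
    (hc : ∀ x ∈ T, c x ∈ k) {D : ℕ} (hD : T.card ≤ D) {p p' : K[X]}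
    (h : p = (∏ x ∈ T, (X - C (c x))) * p') (hs : p.Separable) :
    RootsIn k D p ↔ RootsIn k (D - T.card) p' := by
  classical
  constructor
  · rintro ⟨s, h1, h2⟩
    have h3 : D - T.card ≤ (s \ T.image c).card :=
      le_trans (by rw [h1]; exact Nat.sub_le_sub_left Finset.card_image_le _) (Finset.le_card_sdiff _ _)
    obtain ⟨s', h4, h5⟩ := Finset.exists_subset_card_eq h3
    refine ⟨s', h5, fun b hb => ?_⟩
    obtain ⟨h6, h7⟩ := Finset.mem_sdiff.1 (h4 hb)
    refine ⟨(h2 b h6).1, ?_⟩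
    have h8 := (h2 b h6).2
    rw [h, eval_mul, eval_prod] at h8
    refine (mul_eq_zero.1 h8).resolve_left (Finset.prod_ne_zero_iff.2 fun x hx h9 => h7 ?_)
    exact Finset.mem_image.2 ⟨x, hx, by simpa [sub_eq_zero, eq_comm] using h9⟩
  · rintro ⟨s, h1, h2⟩
    have h0 : p ≠ 0 := hs.ne_zero
    have h3 := nodup_roots hs
    have h4 : (∏ x ∈ T, (X - C (c x))).roots = T.val.map c := by
      rw [← roots_multiset_prod_X_sub_C (T.val.map c), Multiset.map_map]
      rfl
    rw [h, roots_mul (h ▸ h0), h4, Multiset.nodup_add] at h3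
    have h5 : (T.image c).card = T.card := by
      rw [Finset.image, Multiset.toFinset_card_of_nodup h3.1, Multiset.card_map]
      rfl
    have h6 : Disjoint s (T.image c) := Finset.disjoint_left.2 fun b hb hb' =>
      Multiset.disjoint_left.1 h3.2.2 (Multiset.mem_toFinset.1 hb')
        ((mem_roots (right_ne_zero_of_mul (h ▸ h0))).2 (h2 b hb).2)
    refine ⟨s ∪ T.image c, by rw [Finset.card_union_of_disjoint h6, h1, h5]; omega, fun b hb => ?_⟩
    rcases Finset.mem_union.1 hb with hb | hb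
    · exact ⟨(h2 b hb).1, by rw [h, eval_mul, (h2 b hb).2, mul_zero]⟩
    · obtain ⟨x, hx, rfl⟩ := Finset.mem_image.1 hb
      refine ⟨hc x hx, ?_⟩
      rw [h, eval_mul, eval_prod, Finset.prod_eq_zero hx (by simp), zero_mul]

theorem card_le {α : Type} [Finite α] {p q r : α → Prop} (h : ∀ a, p a → q a ∨ r a) :
    Nat.card {a // p a} ≤ Nat.card {a // q a} + Nat.card {a // r a} := by
  change Nat.card {a | p a} ≤ Nat.card {a | q a} + Nat.card {a | r a}
  simp only [Nat.card_coe_set_eq]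
  exact (Set.ncard_le_ncard (t := {a | q a} ∪ {a | r a}) h).trans (Set.ncard_union_le _ _)

theorem arith {f A B E q R S C d f' C' : ℤ} (hf : 0 ≤ f) (hq : 0 ≤ q) (hR : 0 ≤ R) (hS : 0 ≤ S)
    (hE : 0 ≤ E) (h1 : A ≤ B + E) (h2 : B ≤ A + E) (h3 : |f * B - R| * q ≤ C * R)
    (h4 : E * q ^ 2 ≤ d * R) (hf' : f ≤ f') (hC : C ≤ C') :
    |f * A * S - R * S| * q ≤ (C' + f' * d) * (R * S) := by
  have h5 : E * q ≤ d * R := le_trans (mul_le_mul_of_nonneg_left (Int.le_self_sq q) hE) h4
  have h6 : |f * A - R| ≤ |f * B - R| + f * E := by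
    have : f * A - R = (f * B - R) + f * (A - B) := by ring
    rw [this]
    refine (abs_add_le _ _).trans (add_le_add_right ?_ _)
    rw [abs_mul, abs_of_nonneg hf]
    exact mul_le_mul_of_nonneg_left (abs_le.2 ⟨by linarith, by linarith⟩) hf
  have h7 : |f * A - R| * q ≤ (C' + f' * d) * R := by
    have h8 := mul_le_mul_of_nonneg_right h6 hq
    have h9 : f * (E * q) ≤ f' * (d * R) :=
      mul_le_mul hf' h5 (mul_nonneg hE hq) (hf.trans hf')
    have h10 := mul_le_mul_of_nonneg_right hC hR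
    linarith
  rw [← sub_mul, abs_mul, abs_of_nonneg hS]
  have := mul_le_mul_of_nonneg_right h7 hS
  linarith

variable {K F σ : Type} [Field K] [Field F] [Algebra K F] [Fintype σ] {h : σ → F}
  {H : Place K F → ℤ}

theorem sep_mono {s s' : ℕ} (hs : Sep h H s) (h' : s' ≤ s) : Sep h H s' :=
  fun T hT => hs T (hT.trans h')

theorem ne_of_not {a : σ → K} {z : Place K F} {n : ℕ} (ha : ¬ Van h H a z n) : cb h a ≠ 0 :=
  fun h0 => ha (by rw [Van, h0]; exact Place.ge_zero _)

/-- The hyperplane of a rational place has a rational equation. -/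
theorem rat_form (k : Subfield K) [Finite k] {z : Place K F} (hz : IsRat h H (Nat.card k) z)
    (h0 : ∃ a, ¬ Van h H a z 1) {l : σ → K} (hl : ∀ a, Van h H a z 1 ↔ ∑ i, l i * a i = 0) :
    ∃ l : σ → K, (∀ i, l i ∈ k) ∧ ∀ a, Van h H a z 1 ↔ ∑ i, l i * a i = 0 := by
  classical
  obtain ⟨i, hi⟩ : ∃ i, l i ≠ 0 := by
    by_contra hc
    push Not at hc
    obtain ⟨a, ha⟩ := h0
    exact ha ((hl a).2 (by simp [hc]))
  have hQ : Nat.card k ≠ 0 := Nat.card_pos.ne'
  refine ⟨fun j => l j / l i, fun j => ?_, fun a => ?_⟩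
  · by_cases hj : j = i
    · simp only [hj, div_self hi]; exact k.one_mem
    have h1 : ∀ c : K, ∑ m, l m * (Pi.single j 1 + Pi.single i c : σ → K) m = l j + l i * c := by
      intro c
      simp [mul_add, Finset.sum_add_distrib, Pi.single_apply]
    have h2 := (hz _).1 ((hl _).2 ((h1 (-(l j / l i))).trans (by field_simp; ring)))
    have h3 : (fun m => (Pi.single j 1 + Pi.single i (-(l j / l i)) : σ → K) m ^ Nat.card k) =
        (Pi.single j 1 + Pi.single i ((-(l j / l i)) ^ Nat.card k) : σ → K) := by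
      funext m
      by_cases h4 : m = j
      · subst h4; simp [hj]
      · by_cases h5 : m = i
        · subst h5; simp [h4]
        · simp [h4, h5, hQ]
    rw [h3, hl, h1] at h2
    refine neg_mem_iff.1 (mem_of_pow k (mul_left_cancel₀ hi ?_))
    rw [eq_neg_of_add_eq_zero_right h2]
    field_simp
  · rw [hl]
    simp only [div_mul_eq_mul_div, ← Finset.sum_div, div_eq_zero_iff, hi, or_false]

end SPLIT64

open SPLIT64 SUB in
theorem stSPLIT64 (hB : St_BASE) (hP : St_PEN) (hR : St_RES) (hX : St_FIX) (hG : St_GALT)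
    (hS : St_SUB) (hK : St_KBAS) (hD : St_DISC) (hL : St_LW) (hZ : St_SZ) : St_SPLIT := by
  classical
  intro D N
  choose c hc using fun t : ℕ => hL (D - t) (D * D + D) (N - t)
  refine ⟨∑ t ∈ Finset.range 3, c t + D.factorial * (2 * D * (D * D) + D),
    2 * D + 2 * D * (D * D) + 7, ?_⟩
  intro K F σ _ _ _ _ _ hF hN h H hs hsep k _ q hk hq hFR T hT hTr
  rw [← hk] at hFR hTr
  obtain ⟨b1, b2, b3, b4, -⟩ := hB K F σ hF h H D hs
  have v0 : ∀ a p, Van h H a p 0 := fun a p => by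
    by_contra h0
    obtain ⟨Z, hZ⟩ := b1 a (ne_of_not h0)
    exact h0 (((b2 a Z hZ).2.1 p 0).2 (Nat.zero_le _))
  have vT : ∀ (U : Finset (Place K F)) a,
      (∀ p, Van h H a p (U.val.count p)) ↔ ∀ x ∈ U, Van h H a x 1 := fun U a => by
    refine ⟨fun h0 x hx => ?_, fun h0 p => ?_⟩
    · have := h0 x
      rwa [Multiset.count_eq_one_of_mem U.nodup hx] at this
    · by_cases hp : p ∈ U
      · rw [Multiset.count_eq_one_of_mem U.nodup hp]; exact h0 p hp
      · rw [Multiset.count_eq_zero_of_notMem hp]; exact v0 a p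
  have sp : ∀ U : Finset (Place K F), U.card ≤ 5 → ∀ z ∉ U,
      ∃ a, (∀ x ∈ U, Van h H a x 1) ∧ ¬ Van h H a z 1 := fun U hU z hz => by
    obtain ⟨a, h1, h2⟩ := hsep U.val hU z
    rw [Multiset.count_eq_zero_of_notMem hz] at h2
    exact ⟨a, (vT U a).1 h1, h2⟩
  have hD1 : 1 ≤ D := by
    have := hF.inf
    obtain ⟨z, z', hz⟩ := exists_pair_ne (Place K F)
    obtain ⟨a, h1, h2⟩ := sp {z'} (by simp) z (by simpa using hz)
    obtain ⟨Z, hZ⟩ := b1 a (ne_of_not h2)
    obtain ⟨h3, h4, -⟩ := b2 a Z hZ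
    exact ((h4 z' 1).1 (h1 z' (by simp))).trans (h3 ▸ Multiset.count_le_card _ _)
  have hs1 := sep_mono hsep (show 1 ≤ 5 by norm_num)
  obtain ⟨a0, a1, k0, k1, hg⟩ := hP K F σ hF h H D hs hD1 hs1 k
    (by rw [hk]; exact lt_of_lt_of_le hq (Nat.le_self_pow two_ne_zero q)) T hT
  obtain ⟨lam, m0, P, hp⟩ := hR K F σ hF h H D hs hD1 a0 a1 hg.2.2.1
  obtain ⟨x1, x2, x3, x4⟩ := hX K F σ hF h H D hs hD1 hs1 k hFR T a0 a1 k0 k1 hg lam m0 P hp
  choose l hlk hl using fun x : T => (b3 x.1).elim fun l hl => rat_form k (hTr x.1 x.2)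
    ((sp ∅ (by simp) x.1 (by simp)).imp fun _ h => h.2) hl
  have hli : LinearIndependent K l := by
    refine Fintype.linearIndependent_iff.2 fun g hg x => ?_
    obtain ⟨a, h1, h2⟩ := sp (T.erase x.1) (Finset.card_erase_le.trans (by omega)) x.1 (by simp)
    have h3 : ∑ y, g y * ∑ i, l y i * a i = 0 := by
      have h4 : ∀ i, ∑ y, g y * l y i = 0 := fun i => by simpa using congrFun hg i
      simp only [Finset.mul_sum, ← mul_assoc]
      rw [Finset.sum_comm]
      simp only [← Finset.sum_mul, h4, zero_mul, Finset.sum_const_zero]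
    rw [Finset.sum_eq_single x (fun y _ hy => ?_) (by simp)] at h3
    · exact (mul_eq_zero.1 h3).resolve_right fun h4 => h2 ((hl x a).2 h4)
    · rw [(hl y a).1 (h1 y.1 (Finset.mem_erase.2 ⟨fun h => hy (Subtype.ext h), y.2⟩)), mul_zero]
  obtain ⟨hle, β, β1, β2, β3, β4⟩ := hK K σ T k l hlk hli
  have hβ : ∀ a, (∀ x ∈ T, Van h H a x 1) ↔ ∃ b, a = lc β b := fun a => by
    rw [← β2]
    exact ⟨fun h0 x => (hl x a).1 (h0 x.1 x.2), fun h0 x hx => (hl ⟨x, hx⟩ a).2 (h0 _)⟩
  have hlam : sub β lam ≠ 0 := by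
    obtain ⟨Z, hZ, -⟩ := hg.1
    have hZ' := (b2 a0 Z hZ).2.1
    obtain ⟨a, h1, -, h2⟩ := b4 T.val 1 Z.toFinset
      ((hsep T.val (hT.trans (by norm_num)) (have := hF.inf; Classical.arbitrary _)).imp
        fun a h => ⟨h.1, by simp⟩)
      fun z _ => hsep T.val (hT.trans (by norm_num)) z
    obtain ⟨b, rfl⟩ := (hβ a).1 ((vT T a).1 h1)
    intro h0
    refine (hp.lam_iff (lc β b)).2 (fun z hz => ?_) (by rw [← ev_sub, h0, map_zero])
    have h3 := h2 z (Multiset.mem_toFinset.2 (Multiset.one_le_count_iff_mem.1 ((hZ' z 1).1 hz)))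
    rwa [Multiset.count_eq_zero_of_notMem fun h4 => (hg.2.2.2.1 z h4).1 hz] at h3
  obtain ⟨s1, -, -, -, -, P', s2, s3, s4, s5⟩ := hS K F σ _ hF h H D hs _ lam P hp.res T.val β
    (fun a => (vT T a).trans (hβ a)) hlam
  have xT : ∀ x ∈ T, x.cen (cb h a1 / cb h a0) ∈ k := fun x hx =>
    x3 x (hTr x hx) (hg.2.2.2.1 x hx).1
  obtain ⟨-, g1, g2⟩ := hG K F σ _ hF h H D hs hsep T hT a0 a1 hg lam m0 P hp β hβ P' s3
  obtain ⟨Δ, d1, d2, d3⟩ := hD K _ D (D * D) (P.map (sub β).toRingHom) (hp.res.monic.map _)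
    ((hp.res.monic.natDegree_map _).trans hp.res.deg)
    (fun j => by rw [coeff_map]; exact (deg_sub β _).trans (hp.dP j)) g1
  have hτ : Fintype.card (Fin (Fintype.card σ - Fintype.card T)) = N - T.card := by simp [hN]
  have e1 := hc T.card K _ k q hk hτ P' s2.monic s2.deg (s4 _ hp.dP) (s5 k x2 x1 β1 xT) g2
  have e2 := hZ K _ k (Δ * sub β lam) (mul_ne_zero d1 hlam)
  have e3 : (Δ * sub β lam).totalDegree ≤ 2 * D * (D * D) + D :=
    (MvPolynomial.totalDegree_mul _ _).trans (add_le_add d2 ((deg_sub β _).trans hp.dlam))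
  have lk : ∀ (b : Fin (Fintype.card σ - Fintype.card T) → k) i, lc β (fun j => (b j : K)) i ∈ k :=
    fun b i => sum_mem fun j _ => mul_mem (b j).2 (β1 j i)
  have e4 : ∀ b : Fin (Fintype.card σ - Fintype.card T) → k,
      MvPolynomial.eval (fun j => (b j : K)) (Δ * sub β lam) ≠ 0 →
      (Spl h H D (q ^ 2) (lc β fun j => (b j : K)) ↔
        RootsIn k (D - T.card) (P'.map (MvPolynomial.eval fun j => (b j : K)))) := fun b hb => by
    rw [map_mul] at hb
    have h1 := d3 _ (left_ne_zero_of_mul hb)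
    rw [Polynomial.map_map, comp_sub] at h1
    rw [← hk, x4 _ (lk b) (by rw [← ev_sub]; exact right_ne_zero_of_mul hb) h1]
    refine roots_iff k T (fun x => MvPolynomial.eval (lc β fun j => (b j : K)) lam *
      x.cen (cb h a1 / cb h a0)) (fun x hx => mul_mem ?_ (xT x hx)) s1 ?_ h1
    · rw [MvPolynomial.eval_eq']
      exact sum_mem fun m _ => mul_mem (x1 m) (prod_mem fun i _ => pow_mem (lk b i) _)
    · rw [← comp_sub, ← Polynomial.map_map, s3, Polynomial.map_mul, Polynomial.map_multiset_prod,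
        Multiset.map_map]
      congr 2
      refine Multiset.map_congr rfl fun x _ => ?_
      simp [ev_sub]
  have e5 : Nat.card {a : σ → k // Spl h H D (q ^ 2) (fun i => (a i : K)) ∧
      ∀ x ∈ T, Van h H (fun i => (a i : K)) x 1} =
      Nat.card {b : Fin (Fintype.card σ - Fintype.card T) → k //
        Spl h H D (q ^ 2) (lc β fun j => (b j : K))} := by
    refine (Nat.card_eq_of_bijective (fun b => ⟨fun i => ⟨_, lk b.1 i⟩, b.2, (hβ _).2 ⟨_, rfl⟩⟩)
      ⟨fun b b' e => ?_, fun a => ?_⟩).symm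
    · have h1 := β3 (funext fun i => congrArg Subtype.val (congrFun (congrArg Subtype.val e) i))
      exact Subtype.ext (funext fun j => Subtype.ext (congrFun h1 j))
    · obtain ⟨b, hb⟩ := (hβ _).1 a.2.2
      have h1 := β4 b fun i => by rw [← hb]; exact (a.1 i).2
      refine ⟨⟨fun j => ⟨b j, h1 j⟩, ?_⟩, Subtype.ext (funext fun i => Subtype.ext ?_)⟩
      · have h2 := a.2.1
        rwa [hb] at h2
      · exact (congrFun hb i).symm
  have hN' : N = N - T.card + T.card := by
    rw [Fintype.card_coe, hN] at hle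
    omega
  rw [e5]
  rw [hk, hτ] at e2
  have e6 := arith (f := (D - T.card).factorial)
    (A := Nat.card {b : Fin (Fintype.card σ - Fintype.card T) → k //
      Spl h H D (q ^ 2) (lc β fun j => (b j : K))})
    (E := Nat.card {b : Fin (Fintype.card σ - Fintype.card T) → k //
      MvPolynomial.eval (fun j => (b j : K)) (Δ * sub β lam) = 0}) (S := ((q : ℤ) ^ 2) ^ T.card)
    (f' := D.factorial) (C' := ((∑ t ∈ Finset.range 3, c t : ℕ) : ℤ))
    (d := ((2 * D * (D * D) + D : ℕ) : ℤ)) (Nat.cast_nonneg _) (Nat.cast_nonneg _) (by positivity)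
    (by positivity) (Nat.cast_nonneg _)
    (by exact_mod_cast card_le fun b hb => (em _).symm.imp_left fun h0 => (e4 b h0).1 hb)
    (by exact_mod_cast card_le fun b hb => (em _).symm.imp_left fun h0 => (e4 b h0).2 hb) e1
    (by exact_mod_cast e2.trans (Nat.mul_le_mul_right _ e3))
    (Nat.cast_le.2 (Nat.factorial_le (Nat.sub_le _ _)))
    (Nat.cast_le.2 (Finset.single_le_sum (f := c) (fun _ _ => Nat.zero_le _)
      (Finset.mem_range.2 (Nat.lt_succ_of_le hT))))
  rw [← pow_add, ← hN'] at e6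
  exact_mod_cast e6

end Pool.Agent.Lib.PK1.Cnt
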