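import Mathlib

/-!
Stepanov's method for twisted Frobenius counts: the abstract part.
-/

namespace Pool.Agent.Lib.PK1.Cheb

open Finset PowerSeries

variable {k : Type*} [Field k]

theorem indep (p m : ℕ) [ExpChar k p] (A : Submodule k k⟦X⟧)
    (hA : ∀ s ∈ A, (X : k⟦X⟧) ^ p ^ m ∣ s → s = 0) {ι : Type*} [DecidableEq ι] (s : ι → k⟦X⟧)
    (hs : ∀ j, s j ∈ A) : ∀ (n : ℕ) (J : Finset ι) (t : ι → k⟦X⟧), J.card = n →
    (∀ c : ι → k, ∑ j ∈ J, c j • t j = 0 → ∀ j ∈ J, c j = 0) →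
    ∑ j ∈ J, s j * t j ^ p ^ m = 0 → ∀ j ∈ J, s j = 0 := by
  have : ExpChar k⟦X⟧ p := expChar_of_injective_algebraMap (algebraMap k k⟦X⟧).injective p
  intro n
  induction n with
  | zero => intro J t h _ _ j hj; rw [card_eq_zero.1 h] at hj; simp at hj
  | succ n ih =>
    intro J t hJ hi h0
    have hex : ∃ o, ∃ j ∈ J, coeff o (t j) ≠ 0 := by
      obtain ⟨j, hj⟩ : J.Nonempty := card_pos.1 (by omega)
      by_contra hc
      push Not at hc
      have := hi (fun _ => 1) (sum_eq_zero fun j hj => by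
        rw [show t j = 0 from PowerSeries.ext fun o => hc o j hj, smul_zero]) j hj
      exact one_ne_zero this
    classical
    obtain ⟨j0, hj0, hc0⟩ := Nat.find_spec hex
    have hlow : ∀ j ∈ J, ∀ i < Nat.find hex, coeff i (t j) = 0 := fun j hj i hi => by
      by_contra hc
      exact Nat.find_min hex hi ⟨j, hj, hc⟩
    set o := Nat.find hex
    set l : ι → k := fun j => coeff o (t j) / coeff o (t j0)
    have hl0 : l j0 = 1 := div_self hc0
    set t' : ι → k⟦X⟧ := fun j => t j - l j • t j0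
    have ht' : ∀ j ∈ J, (X : k⟦X⟧) ^ (o + 1) ∣ t' j := fun j hj => by
      rw [X_pow_dvd_iff]
      intro i hi
      rcases Nat.lt_succ_iff_lt_or_eq.1 hi with hi | rfl
      · simp [t', hlow j hj i hi, hlow j0 hj0 i hi]
      · simp [t', l, div_mul_cancel₀ _ hc0]
    set s' : k⟦X⟧ := ∑ j ∈ J, l j ^ p ^ m • s j with hs'
    have e1 : ∑ j ∈ J, s j * t' j ^ p ^ m + s' * t j0 ^ p ^ m = 0 := by
      rw [← h0, hs', sum_mul, ← sum_add_distrib]
      refine sum_congr rfl fun j _ => ?_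
      have : t j = t' j + l j • t j0 := by simp [t']
      conv_rhs => rw [this, add_pow_expChar_pow, smul_pow]
      simp [mul_add]
    have e2 : s' = 0 := by
      refine hA _ (A.sum_mem fun j _ => A.smul_mem _ (hs j)) ?_
      obtain ⟨u, hu⟩ : (X : k⟦X⟧) ^ o ∣ t j0 := X_pow_dvd_iff.2 (hlow j0 hj0)
      have hu1 : IsUnit u := by
        rw [isUnit_iff_constantCoeff, isUnit_iff_ne_zero]
        intro h
        apply hc0
        rw [hu, coeff_X_pow_mul', if_pos le_rfl, Nat.sub_self, coeff_zero_eq_constantCoeff_apply, h]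
      have d1 : ((X : k⟦X⟧) ^ (o + 1)) ^ p ^ m ∣ s' * t j0 ^ p ^ m := by
        rw [eq_neg_of_add_eq_zero_right e1, dvd_neg]
        exact dvd_sum fun j hj => (pow_dvd_pow_of_dvd (ht' j hj) _).mul_left _
      rw [hu, pow_succ, mul_pow, mul_pow, mul_left_comm,
        mul_dvd_mul_iff_left (pow_ne_zero _ (pow_ne_zero _ X_ne_zero))] at d1
      exact (hu1.pow _).dvd_mul_right.1 d1
    have e3 : ∀ j ∈ J.erase j0, s j = 0 := by
      refine ih (J.erase j0) t' (by rw [card_erase_of_mem hj0, hJ]; rfl) (fun c hc j hj => ?_) ?_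
      · have := hi (Function.update c j0 (-∑ j ∈ J.erase j0, c j * l j)) (by
          rw [← add_sum_erase _ _ hj0, Function.update_self, ← hc, neg_smul, sum_smul,
            ← sum_neg_distrib, ← sum_add_distrib]
          refine sum_congr rfl fun j hj => ?_
          rw [Function.update_of_ne (ne_of_mem_erase hj)]
          simp only [t', smul_sub, mul_smul]
          abel) j (mem_of_mem_erase hj)
        rwa [Function.update_of_ne (ne_of_mem_erase hj)] at this
      · rw [e2, zero_mul, add_zero, ← add_sum_erase _ _ hj0] at e1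
        have : t' j0 = 0 := by simp [t', hl0]
        rwa [this, zero_pow (pow_ne_zero _ (expChar_ne_zero k p)), mul_zero, zero_add] at e1
    intro j hj
    by_cases h : j = j0
    · rw [hs', ← add_sum_erase _ _ hj0, sum_eq_zero fun j hj => by rw [e3 j hj, smul_zero]] at e2
      simpa [hl0, h] using e2
    · exact e3 j (mem_erase.2 ⟨h, hj⟩)

/-- Expansion at `t`. -/
noncomputable def tay (t : k) : Polynomial k →ₐ[k] k⟦X⟧ := Polynomial.aeval (X + C t)

theorem tay_eq (t : k) (P : Polynomial k) :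
    tay t P = (P.comp (Polynomial.X + Polynomial.C t) : Polynomial k) := by
  induction P using Polynomial.induction_on' with
  | add p q hp hq => simp [hp, hq]
  | monomial n a => simp [tay, Polynomial.aeval_monomial, Polynomial.monomial_comp, Polynomial.coe_pow]

theorem tay_dvd {t : k} {P : Polynomial k} (hP : P ≠ 0) {r : ℕ} (h : (X : k⟦X⟧) ^ r ∣ tay t P) :
    r ≤ P.rootMultiplicity t := by
  rw [Polynomial.le_rootMultiplicity_iff hP, Polynomial.X_sub_C_pow_dvd_iff,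
    Polynomial.X_pow_dvd_iff]
  rw [tay_eq, X_pow_dvd_iff] at h
  intro d hd
  simpa using h d hd

theorem tay_inj (t : k) : Function.Injective (tay t) := by
  rw [injective_iff_map_eq_zero]
  intro P h
  by_contra hP
  have := tay_dvd (t := t) hP (r := P.rootMultiplicity t + 1) (by rw [h]; exact dvd_zero _)
  omega

theorem tay_const (t : k) (P : Polynomial k) : constantCoeff (tay t P) = P.eval t := by
  rw [tay_eq, ← coeff_zero_eq_constantCoeff_apply, Polynomial.coeff_coe,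
    Polynomial.coeff_zero_eq_eval_zero, Polynomial.eval_comp]
  simp

theorem zeros {G : Type*} [Fintype G] (S : Finset k) (u : k → G → k⟦X⟧) {P : Polynomial k}
    (hP : P ≠ 0) (h : ∀ t ∈ S, ∏ g, u t g = tay t P) (W : Finset (k × G))
    (hW : ∀ w ∈ W, w.1 ∈ S ∧ constantCoeff (u w.1 w.2) = 0) : W.card ≤ P.natDegree := by
  classical
  rw [card_eq_sum_card_fiberwise (f := Prod.fst) (t := S) fun w hw => (hW w hw).1]
  calc _ ≤ ∑ t ∈ S, P.roots.count t := sum_le_sum fun t ht => ?_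
    _ ≤ ∑ t ∈ S ∪ P.roots.toFinset, P.roots.count t := sum_le_sum_of_subset subset_union_left
    _ = P.roots.card := Multiset.sum_count_eq_card (fun a ha => by simp [ha])
    _ ≤ _ := Polynomial.card_roots' P
  rw [Polynomial.count_roots]
  refine tay_dvd hP ?_
  rw [← h t ht, ← card_image_of_injOn (f := Prod.snd) fun a ha b hb e =>
    Prod.ext ((mem_filter.1 ha).2.trans (mem_filter.1 hb).2.symm) e, ← prod_const]
  refine (prod_dvd_prod_of_dvd _ _ fun g hg => ?_).trans (prod_dvd_prod_of_subset _ _ _ (subset_univ _))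
  obtain ⟨w, hw, rfl⟩ := mem_image.1 hg
  rw [X_dvd_iff, ← (mem_filter.1 hw).2]
  exact (hW w (mem_filter.1 hw).1).2

theorem num (N c α q : ℕ) (hN : 0 < N) (hα : c ^ 2 + c + 1 ≤ α) (hq : q ≤ N * (c + α + 1)) :
    N * (q * (c + α) + (c + (α + 2 * c + 2))) + 1 < N * (α + 1) * (N * (α + 2 * c + 2 + 1)) := by
  have h1 : q * (c + α) + (α + 3 * c + 4) ≤ N * ((α + 1) * (α + 2 * c + 3)) := by
    have h2 : q * (c + α) ≤ N * ((c + α + 1) * (c + α)) := by
      rw [← mul_assoc]; exact Nat.mul_le_mul_right _ hq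
    have h3 : (c + α + 1) * (c + α) + (α + 3 * c + 4) ≤ (α + 1) * (α + 2 * c + 3) := by nlinarith
    have h4 := Nat.mul_le_mul_left N h3
    have h5 : α + 3 * c + 4 ≤ N * (α + 3 * c + 4) := Nat.le_mul_of_pos_left _ hN
    nlinarith
  have := Nat.mul_le_mul_left N h1
  nlinarith

theorem stepanov (p m : ℕ) [ExpChar k p] [PerfectRing k p] {R : Type*} [CommRing R] [Algebra k R]
    {G Λ : Type*} [Fintype G] [Fintype Λ] (hΛ : Fintype.card Λ = Fintype.card G)
    (Fil : ℕ → Submodule k R) (hmul : ∀ a b, ∀ x ∈ Fil a, ∀ y ∈ Fil b, x * y ∈ Fil (a + b))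
    (h1 : ∀ a, 1 ∈ Fil a) (T : R) (hT : T ∈ Fil 1) (S : Finset k) (ι : k → G → R →ₐ[k] k⟦X⟧)
    (hιT : ∀ t ∈ S, ∀ g, ι t g T = X + C t)
    (hN : ∀ a, ∀ f ∈ Fil a, (∀ t ∈ S, ∀ g, ι t g f = 0) ∨ ∃ P : Polynomial k, P ≠ 0 ∧
      P.natDegree ≤ Fintype.card G * a ∧ ∀ t ∈ S, ∏ g, ι t g f = tay t P)
    (c : ℕ) (w w' : Λ → R) (hw : ∀ l, w l ∈ Fil c) (hw' : ∀ l, w' l ∈ Fil c)
    (hind : ∀ t ∈ S, ∀ g, LinearIndependent k fun x : Λ × ℕ => ι t g (T ^ x.2 * w x.1))
    (hq : Fintype.card G * (c ^ 2 + 2 * c + 2) ≤ p ^ m) (W : Finset (k × G))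
    (hW : ∀ x ∈ W, x.1 ∈ S ∧ x.1 ^ (p ^ m) ^ 2 = x.1 ∧ ∀ l,
      constantCoeff (ι x.1 x.2 (w l)) ^ (p ^ m) ^ 2 = constantCoeff (ι x.1 x.2 (w' l))) :
    W.card ≤ (p ^ m) ^ 2 + (Fintype.card G * (2 * c + 2) + 1) * p ^ m := by
  classical
  have : ExpChar k⟦X⟧ p := expChar_of_injective_algebraMap (algebraMap k k⟦X⟧).injective p
  rcases W.eq_empty_or_nonempty with rfl | ⟨⟨t0, g0⟩, h0⟩
  · simp
  have ht0 : t0 ∈ S := (hW _ h0).1
  set N := Fintype.card G
  have hN0 : 0 < N := Fintype.card_pos_iff.2 ⟨g0⟩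
  set q := p ^ m with hqd
  have hq0 : 0 < q := lt_of_lt_of_le (by positivity) hq
  have hmono : ∀ a b, a ≤ b → ∀ x ∈ Fil a, x ∈ Fil b := fun a b h x hx => by
    obtain ⟨d, rfl⟩ := Nat.exists_eq_add_of_le h
    simpa using hmul _ _ _ hx _ (h1 d)
  have hpow : ∀ a, ∀ x ∈ Fil a, ∀ n, x ^ n ∈ Fil (n * a) := fun a x hx n => by
    induction n with
    | zero => simpa using h1 0
    | succ n ih => rw [pow_succ, Nat.succ_mul]; exact hmul _ _ _ ih _ hx
  have hTw : ∀ (v : Λ → R), (∀ l, v l ∈ Fil c) → ∀ n l (i : Fin (n + 1)),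
      T ^ (i : ℕ) * v l ∈ Fil (c + n) := fun v hv n l i =>
    hmono _ _ (by have := i.2; omega) _ (hmul _ _ _ (hpow _ _ hT i) _ (hv l))
  have hord : ∀ a, ∀ f ∈ Fil a, (X : k⟦X⟧) ^ (N * a + 1) ∣ ι t0 g0 f →
      ∀ t ∈ S, ∀ g, ι t g f = 0 := fun a f hf hd => by
    refine (hN a f hf).resolve_right ?_
    rintro ⟨P, hP, hd', e⟩
    have := tay_dvd hP (t := t0) (r := N * a + 1) (by
      rw [← e t0 ht0]; exact hd.trans (dvd_prod_of_mem _ (mem_univ g0)))
    have := this.trans ((Polynomial.count_roots P).symm.le.trans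
      ((Multiset.count_le_card _ _).trans (Polynomial.card_roots' P)))
    omega
  obtain ⟨α, hα, hα1, hα2⟩ : ∃ α, c ^ 2 + c + 1 ≤ α ∧ N * (c + α) + 1 ≤ q ∧ q ≤ N * (c + α + 1) := by
    have e1 := Nat.div_add_mod (q - 1) N
    have e2 := Nat.mod_lt (q - 1) hN0
    have e3 : c ^ 2 + 2 * c + 1 ≤ (q - 1) / N := by
      rw [Nat.le_div_iff_mul_le hN0]
      have : N * (c ^ 2 + 2 * c + 2) = (c ^ 2 + 2 * c + 1) * N + N := by ring
      omega
    refine ⟨(q - 1) / N - c, by omega, ?_, ?_⟩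
    · rw [show c + ((q - 1) / N - c) = (q - 1) / N by omega]; omega
    · rw [show c + ((q - 1) / N - c) = (q - 1) / N by omega, mul_add]; omega
  set β := α + 2 * c + 2
  let a : Λ × Fin (α + 1) → R := fun x => T ^ (x.2 : ℕ) * w x.1
  let b : Λ × Fin (β + 1) → R := fun x => T ^ (x.2 : ℕ) * w x.1
  let b' : Λ × Fin (β + 1) → R := fun x => T ^ (x.2 : ℕ) * w' x.1
  let M := N * (q * (c + α) + (c + β)) + 1
  let v : (Λ × Fin (α + 1)) × (Λ × Fin (β + 1)) → Fin M → k :=
    fun x i => coeff i (ι t0 g0 (a x.1 ^ q * b' x.2))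
  have hv : ¬ LinearIndependent k v := fun hl => by
    have := hl.fintype_card_le_finrank
    simp only [Fintype.card_prod, Fintype.card_fin, hΛ, Module.finrank_fin_fun] at this
    exact absurd (num N c α q hN0 hα hα2) (not_lt.2 this)
  obtain ⟨u, hu1, x0, hu2⟩ := Fintype.not_linearIndependent_iff.1 hv
  have hz : ∀ t ∈ S, ∀ g, ι t g (∑ x, u x • (a x.1 ^ q * b' x.2)) = 0 := by
    refine hord (q * (c + α) + (c + β)) _ (Submodule.sum_mem _ fun x _ => Submodule.smul_mem _ _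
      (hmul _ _ _ (hpow _ _ (hTw w hw α _ _) q) _ (hTw w' hw' β _ _))) ?_
    rw [X_pow_dvd_iff]
    intro i hi
    have := congrFun hu1 ⟨i, hi⟩
    simpa [v, Finset.sum_apply] using this
  let r : (Λ × Fin (α + 1)) × (Λ × Fin (β + 1)) → k := fun x => (iterateFrobeniusEquiv k p m).symm (u x)
  have hr : ∀ x, r x ^ q = u x := fun x => (iterateFrobeniusEquiv k p m).apply_symm_apply (u x)
  let s : Λ × Fin (β + 1) → R := fun j => ∑ i, r (i, j) • a i
  have hs : ∀ j, s j ∈ Fil (c + α) := fun j =>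
    Submodule.sum_mem _ fun i _ => Submodule.smul_mem _ _ (hTw w hw α _ _)
  have hli : ∀ n, LinearIndependent k fun x : Λ × Fin n => ι t0 g0 (T ^ (x.2 : ℕ) * w x.1) :=
    fun n => (hind t0 ht0 g0).comp (fun x : Λ × Fin n => (x.1, (x.2 : ℕ)))
      fun x y e => Prod.ext (Prod.ext_iff.1 e).1 (Fin.ext (Prod.ext_iff.1 e).2)
  have hg : ι t0 g0 (∑ j, s j * b j ^ q) ≠ 0 := fun e => by
    simp only [map_sum, map_mul, map_pow] at e
    have := indep p m ((Fil (c + α)).map (ι t0 g0).toLinearMap) (by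
      rintro _ ⟨f, hf, rfl⟩ hd
      exact hord _ f hf ((pow_dvd_pow _ hα1).trans hd) t0 ht0 g0) (fun j => ι t0 g0 (s j))
      (fun j => ⟨_, hs j, rfl⟩) _ univ (fun j => ι t0 g0 (b j)) rfl
      (fun c hc j _ => Fintype.linearIndependent_iff.1 (hli (β + 1)) c hc j) e x0.2 (mem_univ _)
    simp only [s, map_sum, map_smul] at this
    have := Fintype.linearIndependent_iff.1 (hli (α + 1)) _ this x0.1
    apply hu2
    rw [← hr, show r x0 = 0 from this, zero_pow hq0.ne']
  obtain ⟨P, hP, hd, e⟩ := (hN (c + α + q * (c + β)) (∑ j, s j * b j ^ q)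
    (Submodule.sum_mem _ fun j _ => hmul _ _ _ (hs j) _ (hpow _ _ (hTw w hw β _ _) q))).resolve_left
    fun h => hg (h t0 ht0 g0)
  refine (zeros S _ hP e W fun x hx => ⟨(hW x hx).1, ?_⟩).trans (hd.trans ?_)
  · obtain ⟨h1, h2, h3⟩ := hW x hx
    let ev : R →+* k := (constantCoeff (R := k)).comp (ι x.1 x.2).toRingHom
    have hev : ∀ (z : k) f, ev (z • f) = z * ev f := fun z f => by simp [ev]
    have hb : ∀ j, ev (b j) ^ q ^ 2 = ev (b' j) := fun j => by
      have e1 : ev T = x.1 := by simp [ev, hιT _ h1]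
      simp only [b, b', map_mul, map_pow, mul_pow, e1]
      rw [← pow_mul, mul_comm _ (q ^ 2), pow_mul, h2]
      exact congrArg _ (h3 j.1)
    have e2 : ev (∑ x, u x • (a x.1 ^ q * b' x.2)) = 0 := by
      simp only [ev, RingHom.comp_apply]
      exact (congrArg _ (hz _ h1 _)).trans (map_zero _)
    refine pow_eq_zero_iff hq0.ne' |>.1 ?_
    change ev _ ^ q = 0
    rw [← e2, map_sum, map_sum, hqd, sum_pow_char_pow]
    conv_rhs => rw [Fintype.sum_prod_type_right]
    refine sum_congr rfl fun j _ => ?_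
    simp only [s, map_mul, map_pow, map_sum, hev, mul_pow]
    rw [sum_pow_char_pow, sum_mul, ← hqd, ← pow_mul, ← sq, hb]
    refine sum_congr rfl fun i _ => ?_
    rw [mul_pow, hr, mul_assoc]
  · have : N * (c + α + q * (c + β)) = N * (c + α) + q * (N * (c + α)) + N * (2 * c + 2) * q := by
      simp only [β]; ring
    have h2 : q * (N * (c + α)) ≤ q * q := Nat.mul_le_mul_left _ (by omega)
    rw [this, add_mul, sq]
    omega

end Pool.Agent.Lib.PK1.Cheb
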