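import Pool.Agent.Lib.PK1.Cheb49A

/-!
Tools for the twisted count: bad fibres, embeddings into power series, degree at infinity, bases.
-/

namespace Pool.Agent.Lib.PK1.Cheb

open Finset Polynomial

variable {k : Type*} [Field k]

/-- Few fibres are inseparable. -/
theorem bad_fibres {K : Type*} [Field K] (φ : k[X] →+* K) (hφ : Function.Injective φ)
    (f : k[X][X]) (c : ℕ) (hc : ∀ i, (f.coeff i).natDegree ≤ c) (hs : (f.map φ).Separable)
    (hm : f.Monic) : ∃ D : k[X], D ≠ 0 ∧ D.natDegree ≤ 2 * f.natDegree * c ∧
      ∀ t, D.eval t ≠ 0 → (f.map (evalRingHom t)).Separable := by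
  by_cases h0 : f.natDegree = 0
  · obtain rfl := eq_one_of_monic_natDegree_zero hm h0
    exact ⟨1, one_ne_zero, by simp, fun t _ => by simp⟩
  refine ⟨resultant f (derivative f), fun e => ?_, ?_, fun t ht => ?_⟩
  · have := resultant_ne_zero _ _ hs
    rw [derivative_map, natDegree_map_eq_of_injective hφ, natDegree_map_eq_of_injective hφ,
      resultant_map_map, e, map_zero] at this
    exact this rfl
  · have h1 : ∀ i j, (sylvester f (derivative f) f.natDegree (derivative f).natDegree i j).natDegree
        ≤ c := fun i j => by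
      refine j.addCases (fun j => ?_) (fun j => ?_)
      · simp only [sylvester, Matrix.of_apply, Fin.addCases_left]
        split_ifs
        · rw [coeff_derivative, ← Nat.cast_succ, ← C_eq_natCast]
          exact (natDegree_mul_C_le _ _).trans (hc _)
        · simp
      · simp only [sylvester, Matrix.of_apply, Fin.addCases_right]
        split_ifs
        · exact hc _
        · simp
    rw [resultant, Matrix.det_apply]
    refine natDegree_sum_le_of_forall_le _ _ fun σ _ => (natDegree_smul_le _ _).trans
      ((natDegree_prod_le _ _).trans ((sum_le_card_nsmul _ _ c fun i _ => h1 _ _).trans ?_))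
    have := natDegree_derivative_le f
    simp only [card_univ, Fintype.card_fin, smul_eq_mul]
    exact Nat.mul_le_mul_right _ (by omega)
  · obtain ⟨a, b, -, -, e⟩ := exists_mul_add_mul_eq_C_resultant f (derivative f) le_rfl le_rfl
      (.inl h0)
    have e' := congrArg (Polynomial.map (evalRingHom t)) e
    simp only [Polynomial.map_add, Polynomial.map_mul, map_C, coe_evalRingHom] at e'
    refine ⟨C (eval t (resultant f (derivative f)))⁻¹ * a.map (evalRingHom t),
      C (eval t (resultant f (derivative f)))⁻¹ * b.map (evalRingHom t), ?_⟩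
    rw [derivative_map, mul_assoc, mul_assoc, ← mul_add, mul_comm (a.map _), mul_comm (b.map _), e',
      ← C_mul, inv_mul_cancel₀ ht, C_1]

theorem map_tay_const (t : k) (f : k[X][X]) :
    (f.map (tay t : k[X] →+* PowerSeries k)).map PowerSeries.constantCoeff =
      f.map (evalRingHom t) := by
  rw [Polynomial.map_map]
  congr 1
  exact RingHom.ext fun P => tay_const t P

/-- At a separable fibre the splitting field embeds into Laurent series. -/
theorem embed [IsAlgClosed k] {K L : Type*} [Field K] [Field L] [Algebra k[X] K]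
    [IsFractionRing k[X] K] [Algebra K L] (f : k[X][X]) (hm : f.Monic)
    [IsSplittingField K L (f.map (algebraMap k[X] K))] {ι : Type*} [Fintype ι] (y : ι → L)
    (hy : (f.map (algebraMap k[X] K)).map (algebraMap K L) = ∏ i, (X - C (y i))) (t : k)
    (ht : (f.map (evalRingHom t)).Separable) :
    ∃ (j : L →+* FractionRing (PowerSeries k)) (a : ι → PowerSeries k),
      (∀ P, j (algebraMap K L (algebraMap k[X] K P)) = algebraMap _ _ (tay t P)) ∧
      (∀ i, j (y i) = algebraMap _ _ (a i)) ∧
      f.map (evalRingHom t) = ∏ i, (X - C (PowerSeries.constantCoeff (a i))) := by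
  classical
  set Ω := FractionRing (PowerSeries k)
  set g := f.map (tay t : k[X] →+* PowerSeries k) with hg
  have hgm : g.Monic := hm.map _
  have inj : Function.Injective (algebraMap (PowerSeries k) Ω) := IsFractionRing.injective _ _
  have hev : ∀ (P : (PowerSeries k)[X]) (b : k), PowerSeries.constantCoeff (P.eval (PowerSeries.C b))
      = (P.map PowerSeries.constantCoeff).eval b := fun P b => by
    rw [eval_map, ← eval₂_at_apply, ← eval_map]; simp [eval_map]
  have h1 : ∀ b ∈ (f.map (evalRingHom t)).roots, ∃ a, g.IsRoot a ∧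
      PowerSeries.constantCoeff a = b := fun b hb => by
    have hb' : (f.map (evalRingHom t)).IsRoot b := isRoot_of_mem_roots hb
    obtain ⟨a, h1, h2⟩ := HenselianRing.is_henselian
      (I := (Ideal.span {PowerSeries.X} : Ideal (PowerSeries k))) g hgm (PowerSeries.C b)
      (by rw [Ideal.mem_span_singleton, PowerSeries.X_dvd_iff, hev, map_tay_const]; exact hb')
      (IsUnit.map _ (by
        rw [PowerSeries.isUnit_iff_constantCoeff, hev, ← derivative_map, map_tay_const,
          isUnit_iff_ne_zero]
        exact ht.eval₂_derivative_ne_zero (RingHom.id k) hb'))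
    rw [Ideal.mem_span_singleton, PowerSeries.X_dvd_iff, map_sub, sub_eq_zero] at h2
    exact ⟨a, h1, by simpa using h2⟩
  choose! r hr1 hr2 using h1
  let φ : K →+* Ω := IsFractionRing.lift
    (g := (algebraMap (PowerSeries k) Ω).comp (tay t : k[X] →+* PowerSeries k))
    (inj.comp (tay_inj t))
  have hφ : ∀ P, φ (algebraMap k[X] K P) = algebraMap _ _ (tay t P) := fun P =>
    IsFractionRing.lift_algebraMap _ P
  have e1 : (f.map (algebraMap k[X] K)).map φ = g.map (algebraMap _ Ω) := by
    rw [hg, Polynomial.map_map, Polynomial.map_map]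
    congr 1
    exact RingHom.ext hφ
  have hsp : (g.map (algebraMap _ Ω)).Splits := by
    rw [splits_iff_card_roots]
    refine le_antisymm (card_roots' _) ?_
    have h2 : (f.map (evalRingHom t)).roots.map (fun b => algebraMap _ Ω (r b)) ≤
        (g.map (algebraMap _ Ω)).roots := by
      rw [Multiset.le_iff_subset ((nodup_roots ht).map_on fun a ha b hb e => by
        rw [← hr2 a ha, ← hr2 b hb, inj e])]
      intro z hz
      obtain ⟨b, hb, rfl⟩ := Multiset.mem_map.1 hz
      rw [mem_roots (hgm.map _).ne_zero]
      exact (hr1 b hb).map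
    have h3 := Multiset.card_le_card h2
    rwa [Multiset.card_map, ← (IsAlgClosed.splits _).natDegree_eq_card_roots, hm.natDegree_map,
      ← hm.natDegree_map (tay t : k[X] →+* PowerSeries k), ← hg,
      ← hgm.natDegree_map (algebraMap _ Ω)] at h3
  let _ := φ.toAlgebra
  let j : L →ₐ[K] Ω := IsSplittingField.lift L (f.map (algebraMap k[X] K)) (e1 ▸ hsp)
  have e2 : g.map (algebraMap _ Ω) = ∏ i, (X - C (j (y i))) := by
    have := congrArg (Polynomial.map (j : L →+* Ω)) hy
    rw [Polynomial.map_map, j.comp_algebraMap] at this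
    rw [← e1]
    refine this.trans ?_
    simp [Polynomial.map_prod]
  have h4 : ∀ i, ∃ a, algebraMap _ Ω a = j (y i) := fun i => by
    refine IsIntegrallyClosed.isIntegral_iff.1 ⟨g, hgm, ?_⟩
    rw [← eval_map, e2, eval_prod]
    exact prod_eq_zero (mem_univ i) (by simp)
  choose a ha using h4
  refine ⟨j, a, fun P => (j.commutes _).trans (hφ P), fun i => (ha i).symm, ?_⟩
  have e3 : g = ∏ i, (X - C (a i)) := by
    apply map_injective _ inj
    rw [e2]
    simp [Polynomial.map_prod, ha]
  rw [← map_tay_const, ← hg, e3]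
  simp [Polynomial.map_prod]

/-- The ring of elements without pole at infinity. -/
theorem infty {K : Type*} [Field K] [Algebra k[X] K] [IsFractionRing k[X] K] :
    ∃ O : Subring K, (∀ x, IsIntegral O x → x ∈ O) ∧ ∀ (P : k[X]) (n : ℕ),
      algebraMap k[X] K P * (algebraMap k[X] K X)⁻¹ ^ n ∈ O ↔ P.natDegree ≤ n := by
  classical
  let e : K →+* RatFunc k := IsFractionRing.lift (g := algebraMap k[X] (RatFunc k))
    (IsFractionRing.injective _ _)
  have he : ∀ P, e (algebraMap k[X] K P) = algebraMap _ _ P := fun P =>
    IsFractionRing.lift_algebraMap _ P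
  let v := (RatFunc.inftyValuation k).comap e
  refine ⟨v.integer, fun x hx => (Valuation.integer.integers v).mem_of_integral hx, fun P n => ?_⟩
  by_cases hP : P = 0
  · simp [hP]
  rw [Valuation.mem_integer_iff]
  simp only [v, Valuation.comap_apply, map_mul, map_pow, map_inv₀, he,
    RatFunc.inftyValuation_apply]
  rw [RatFunc.inftyValuation.polynomial _ hP, RatFunc.inftyValuation.polynomial _ X_ne_zero,
    natDegree_X, ← WithZero.exp_neg, ← WithZero.exp_nsmul, ← WithZero.exp_add, ← WithZero.exp_zero,
    WithZero.exp_le_exp]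
  simp

/-- A basis of bounded monomials. -/
theorem mono_basis {K L : Type*} [Field K] [Field L] [Algebra K L] (F : K[X]) (hm : F.Monic)
    {ι : Type*} [Fintype ι] [DecidableEq ι] (y : ι → L) (hy : ∀ i, aeval (y i) F = 0)
    (ht : Algebra.adjoin K (Set.range y) = ⊤) : ∃ (Λ : Finset (ι → Fin F.natDegree)),
      Λ.card = Module.finrank K L ∧
      LinearIndependent K fun l : Λ => ∏ i, y i ^ (l.1 i : ℕ) := by
  classical
  let v : (ι → Fin F.natDegree) → L := fun β => ∏ i, y i ^ (β i : ℕ)
  have hsp : ⊤ ≤ Submodule.span K (Set.range v) := by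
    intro x _
    have hx : x ∈ Algebra.adjoin K (Set.range y) := ht ▸ Algebra.mem_top
    rw [Algebra.adjoin_range_eq_range_aeval] at hx
    obtain ⟨P, rfl⟩ := hx
    change MvPolynomial.aeval y P ∈ _
    rw [MvPolynomial.aeval_def, MvPolynomial.eval₂_eq']
    refine Submodule.sum_mem _ fun n _ => ?_
    rw [← Algebra.smul_def]
    refine Submodule.smul_mem _ _ ?_
    have : ∀ i, y i ^ n i = ∑ e : Fin F.natDegree, ((X ^ n i : K[X]) %ₘ F).coeff e • y i ^ (e : ℕ) :=
      fun i => by
      have h1 : F ≠ 1 := by
        rintro rfl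
        simpa using hy i
      rw [Fin.sum_univ_eq_sum_range (fun e => ((X ^ n i : K[X]) %ₘ F).coeff e • y i ^ e),
        ← aeval_eq_sum_range' (natDegree_modByMonic_lt _ hm h1),
        aeval_modByMonic_eq_self_of_root (hy i)]
      simp
    simp only [this]
    rw [prod_univ_sum]
    refine Submodule.sum_mem _ fun β _ => ?_
    rw [prod_smul]
    exact Submodule.smul_mem _ _ (Submodule.subset_span ⟨β, rfl⟩)
  obtain ⟨s, -, -, h1, h2⟩ := exists_linearIndepOn_extension (linearIndepOn_empty K v)
    (Set.empty_subset Set.univ)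
  refine ⟨s.toFinset, ?_, h2.comp (fun l : s.toFinset => ⟨l.1, Set.mem_toFinset.1 l.2⟩)
    fun a b e => Subtype.ext (Subtype.mk.inj e)⟩
  have b := Module.Basis.mk h2 (hsp.trans (Submodule.span_le.2 (by
    rw [← Set.image_univ, ← Set.image_eq_range]; exact h1)))
  rw [Module.finrank_eq_card_basis b, Set.toFinset_card]

end Pool.Agent.Lib.PK1.Cheb
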