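import Pool.Agent.Lib.PK1.GENP7a

/-! Generic pencils on good curves are simply ramified. -/

open MvPolynomial Pool.Agent.Lib.MP_e06174_ag
open scoped Classical Polynomial

set_option linter.unusedSectionVars false

noncomputable section

namespace Pool.Agent.Lib.PK1

namespace GP7

open Gen JAC BERT

variable {K L ι : Type} [Field K] [Field L] [Algebra K L] [Fintype ι]

/-- Vectors of polynomials of degree less than four. -/
abbrev JT (K ι : Type) [Field K] : Type := ι → Polynomial.degreeLT K 4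

instance : Module.Finite K (Polynomial.degreeLT K 4) :=
  Module.Finite.equiv (Polynomial.degreeLTEquiv K 4).symm

instance (m : ℕ) : Module.Finite K (homogeneousSubmodule ι K m) :=
  Module.Finite.iff_fg.2 (homogeneousSubmodule_fg ι K m)

/-- The underlying polynomials. -/
def up (γ : JT K ι) : ι → K[X] := fun k => (γ k).1

variable {n : ℕ} (g : Fin n → MvPolynomial ι K)

/-- A jet whose base point is off `Y` when `c = 0`. -/
def PtJ (e : MvPolynomial ι K) (yv : Fin 2 → ι → K) (i j : ι) (c : Fin 2) (γ : JT K ι) : Prop :=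
  Jet g e i j (up γ) ∧ (c = 0 → ∀ a, yv a = 0 ∨ yv a ≠ yv a i • z0 (up γ))

/-- Vanishing of `k` coefficients. -/
def Vn (c : Fin 2) (k : ℕ) (γ : JT K ι) (w : MvPolynomial ι K) : Prop :=
  ∀ r : Fin k, (aeval (up γ) w).coeff (c + r) = 0

/-- Normalised coefficients of a member of a pencil. -/
def AB (p : K × K) : Prop := p.1 = 1 ∨ p.2 = 1

section df

variable {X : Type} [AddCommGroup X] [Module K X] {γ : X → JT K ι} {e w : X → MvPolynomial ι K}

lemma pm_up (hγ : PM K γ) (k : ι) : PM K fun x => up (γ x) k := (hγ.apply' k).coe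

@[fun_prop] lemma pm_z0 (hγ : PM K γ) : PM K fun x => z0 (up (γ x)) :=
  .pi fun k => (pm_up hγ k).pcoeff 0

lemma df_jet (he : PM K e) (hγ : PM K γ) (i j : ι) : Df K fun x => Jet g (e x) i j (up (γ x)) :=
  ((Df.eq (pm_up hγ i) (.const 1)).and <| (Df.eq (pm_up hγ j)
    (((pm_up hγ j).pcoeff 0).pC.add (.const Polynomial.X))).and <|
      (Df.fall fun a => Df.dvd _ (PM.aeval (pm_up hγ) (.const (g a)))).and
        (Df.dvd _ (PM.aeval (pm_up hγ) he))).congr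
    fun _ => ⟨fun h => ⟨h.1, h.2.1, h.2.2.1, h.2.2.2⟩, fun h => ⟨h.1, h.2, h.3, h.4⟩⟩

lemma df_pt {yv : X → Fin 2 → ι → K} (he : PM K e) (hy : PM K yv) (hγ : PM K γ) (i j : ι)
    (c : Fin 2) : Df K fun x => PtJ g (e x) (yv x) i j c (γ x) :=
  (df_jet g he hγ i j).and ((Df.const _).imp (Df.fall fun a => (Df.eq (hy.apply' a) (.const 0)).or
    (Df.ne (hy.apply' a) (((hy.apply' a).apply' i).smul (pm_z0 hγ)))))

lemma df_vn (c : Fin 2) (k : ℕ) (hγ : PM K γ) (hw : PM K w) : Df K fun x => Vn c k (γ x) (w x) :=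
  Df.fall fun _ => Df.eq ((PM.aeval (pm_up hγ) hw).pcoeff _) (.const 0)

lemma df_ab {p : X → K × K} (hp : PM K p) : Df K fun x => AB (p x) :=
  (Df.eq hp.fst (.const 1)).or (Df.eq hp.snd (.const 1))

end df

lemma dim_ab [Infinite K] : DimLe K (AB (K := K)) 1 := by
  have h : DimLe K (fun _ : K => True) 1 := by simpa using DimLe.top (k := K) (X := K)
  exact (h.of_image (f := fun t => ((1 : K), t)) (by fun_prop) fun p hp =>
    ⟨p.2, trivial, Prod.ext hp.symm rfl⟩).or (h.of_image (f := fun t => (t, (1 : K)))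
      (by fun_prop) fun p hp => ⟨p.1, trivial, Prod.ext rfl hp.symm⟩)

lemma pt_eq {x x' : Pt K ι} {z : ι → K} {s t : K} (h : x.rep = s • z) (h' : x'.rep = t • z) :
    x = x' := pt_ext fun r hr h0 => by
  have hs : s ≠ 0 := fun e => x.rep_nonzero (by simp [h, e])
  rw [h, show s • z = fun i => s * z i from rfl, eval_scale hr] at h0
  rw [h', show t • z = fun i => t * z i from rfl, eval_scale hr,
    (mul_eq_zero.1 h0).resolve_left (by simpa), mul_zero]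

lemma exists_sep {z u : ι → K} {i : ι} (h : u ≠ u i • z) : ∃ l : MvPolynomial ι K,
    l.IsHomogeneous 1 ∧ eval u l = 0 ∧ eval z l ≠ z i * 0 ∨ z i ≠ 1 := by
  obtain ⟨k, hk⟩ := Function.ne_iff.1 h
  by_cases hz : z i = 1
  · exact ⟨lin u i k, Or.inl ⟨lin_hom _ _ _, by rw [eval_lin]; ring, by
      rw [eval_lin, hz, mul_one, mul_zero, sub_ne_zero]; exact hk.symm⟩⟩
  · exact ⟨0, Or.inr hz⟩

lemma sep {z u : ι → K} {i : ι} (hz : z i = 1) (h : u ≠ u i • z) : ∃ l : MvPolynomial ι K,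
    l.IsHomogeneous 1 ∧ eval u l = 0 ∧ eval z l ≠ 0 := by
  obtain ⟨l, h | h⟩ := exists_sep h
  · exact ⟨l, by simpa using h⟩
  · exact absurd hz h

variable {g}

/-- Forms with prescribed leading term along a jet. -/
lemma wit {e : MvPolynomial ι K} {yv : Fin 2 → ι → K} {i j : ι} {c : Fin 2} {γ : JT K ι}
    (h : PtJ g e yv i j c γ) {Y : Finset (Pt K ι)} (hY : ∀ x ∈ Y, ∃ a, yv a = x.rep)
    {q : MvPolynomial ι K} {d : ℕ} (hq : q.IsHomogeneous d) (hq0 : eval (z0 (up γ)) q ≠ 0)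
    {m r : ℕ} (hm : d + 2 + (c + r) ≤ m) : ∃ w : MvPolynomial ι K, (q * w).IsHomogeneous m ∧
      (∀ x ∈ Y, eval x.rep (q * w) = 0) ∧ (aeval (up γ) (q * w)).coeff (c + r) ≠ 0 ∧
        ∀ r' < r, (aeval (up γ) (q * w)).coeff (c + r') = 0 := by
  set z := z0 (up γ)
  have hz : z i = 1 := h.1.zi
  have : ∀ a, ∃ l : MvPolynomial ι K, l.IsHomogeneous 1 ∧ eval z l ≠ 0 ∧
      (yv a ≠ yv a i • z → eval (yv a) l = 0) := fun a => by
    by_cases h : yv a = yv a i • z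
    · exact ⟨X i, isHomogeneous_X K i, by simp [hz], fun h' => absurd h h'⟩
    · obtain ⟨l, h1, h2, h3⟩ := sep hz h
      exact ⟨l, h1, h3, fun _ => h2⟩
  choose l l1 l2 l3 using this
  have e1 : aeval (up γ) (lin z i j) = Polynomial.X := by
    rw [aeval_lin, hz, one_smul, h.1.hi, h.1.hj]
    simp [z, z0, Polynomial.smul_eq_C_mul]
  have e2 : aeval (up γ) (q * (l 0 * l 1 * lin z i j ^ (c + r) * X i ^ (m - (d + 2 + (c + r))))) =
      aeval (up γ) (q * l 0 * l 1) * Polynomial.X ^ (c + r) := by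
    simp only [map_mul, map_pow, e1, aeval_X, h.1.hi]; ring
  refine ⟨l 0 * l 1 * lin z i j ^ (c + r) * X i ^ (m - (d + 2 + (c + r))), ?_, fun x hx => ?_,
    ?_, fun r' hr => ?_⟩
  · convert hq.mul ((((l1 0).mul (l1 1)).mul ((lin_hom z i j).pow (c + r))).mul (hom_X_pow i _))
    omega
  · obtain ⟨a, ha⟩ := hY x hx
    by_cases h1 : yv a = yv a i • z
    · have hc : c ≠ 0 := fun e => (h.2 e a).elim (fun e => x.rep_nonzero (ha ▸ e)) fun h => h h1
      have : eval x.rep (lin z i j) = 0 := by rw [← ha, h1, eval_lin]; simp; ring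
      simp [this, hc]
    · have := l3 a h1
      rw [ha] at this
      fin_cases a <;> simp_all
  · rw [e2, Polynomial.coeff_mul_X_pow', if_pos le_rfl, Nat.sub_self, coeff_zero_aeval]
    simp [hq0, l2, z]
  · rw [e2, Polynomial.coeff_mul_X_pow', if_neg (by omega)]

/-- A coefficient along a jet as a linear functional. -/
def cf (γ : JT K ι) (r : ℕ) : MvPolynomial ι K →ₗ[K] K :=
  Polynomial.lcoeff K r ∘ₗ (aeval (up γ)).toLinearMap

variable [IsAlgClosed K] [Nonempty ι] {y : ι → L} {m : ℕ} {e : MvPolynomial ι K} {v : Place K L}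

lemma dim_jet (hT : St_TAN) (h2 : St_LOC2) (hy : Surf K y) (hg : Gens y g) (he : GC y m e v)
    (i j : ι) : DimLe K (fun γ : JT K ι => Jet g e i j (up γ)) 1 := by
  have key : ∀ γ : JT K ι, Jet g e i j (up γ) → ∃ h0 : z0 (up γ) ≠ 0,
      On y (Projectivization.mk K _ h0) ∧ eval (z0 (up γ)) e = 0 := fun γ h =>
    ⟨fun e => by simpa [e] using h.zi, (on_mk _).2 ((onv hg _).2 fun a => eval_of_dvd (h.hg a)),
      eval_of_dvd h.he⟩
  refine (DimLe.finite_fibre (B := fun z (γ : JT K ι) => Jet g e i j (up γ) ∧ z0 (up γ) = z)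
    ((df_jet g (by fun_prop) (by fun_prop) i j).and (Df.eq (by fun_prop) (by fun_prop)))
    ((dim_chart (bar v y) (h2.crv K L ι y hy v he.cur).tr.le i).mono ?_)
    fun z => Set.Subsingleton.finite ?_).of_image (f := fun p => p.2) (by fun_prop)
      fun γ h => ⟨(z0 (up γ), γ), ⟨h, rfl⟩, rfl⟩
  · rintro _ ⟨γ, h, rfl⟩
    obtain ⟨h0, h1, h2⟩ := key γ h
    exact ⟨(on_mk h0).1 ((he.on _).2 ⟨h1, (eval_mk_eq_zero he.good.1 _ h0).2 h2⟩), h.zi⟩
  · rintro γ ⟨h, rfl⟩ γ' ⟨h', hz⟩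
    obtain ⟨h0, h1, h2⟩ := key γ' h'
    obtain ⟨c, hc, hr⟩ := exists_rep_mk _ h0
    obtain ⟨f1, f2, f3⟩ := hT K L ι y hy n g hg _ h1
    have f4 := mt (f3 m e he.good.1).2 (he.good.2 _ h1)
    rw [eval_mk_eq_zero he.good.1] at f4
    rw [hr, tsp_scale hg hc] at f1 f2 f4
    ext k : 2
    refine sub_eq_zero.1 (Polynomial.eq_zero_of_dvd_of_degree_lt (h.uniq h' hz.symm
      (fun δ => h'.inj he.good.1 f1 ?_ ?_) k) ?_)
    · convert Submodule.smul_mem _ c⁻¹ f2 using 1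
      ext; simp [hc]
    · by_contra! h
      exact f4 ⟨h2, fun ξ hξ => by rw [dirD_scale he.good.1, h ξ hξ, mul_zero]⟩
    · simpa using Polynomial.mem_degreeLT.1 (sub_mem (γ k).2 (γ' k).2)

lemma ev_place (hF : St_FF) (hC : St_CM1) (h2 : St_LOC2) (hy : Surf K y) (hg : Gens y g)
    (he : GC y m e v) {Y : Finset (Pt K ι)} {yv : Fin 2 → ι → K}
    (hY : ∀ a, yv a = 0 ∨ ∃ x ∈ Y, yv a = x.rep) (P : Place K (RF v)) :
    ∃ i j c γ, PtJ g e yv i j c γ ∧ (∃ s : K, (ctr (bar v y) P).rep = s • z0 (up γ)) ∧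
      ∀ k : ℕ, k ≤ 3 → ∀ w : MvPolynomial ι K, w.IsHomogeneous m →
        P.Ge (k + ind Y (ctr (bar v y) P)) (nrm P (bar v y) m w) → Vn c k γ w := by
  obtain ⟨i, j, γ, a1, a2, a3, a4⟩ := exists_jet hF hC (h2.crv K L ι y hy v he.cur) P (he.br P).sm
  have : ∀ d (w : MvPolynomial ι K), w.IsHomogeneous d → v.Ge 1 (nrm v y d w) →
      Polynomial.X ^ 4 ∣ aeval (up γ) w := fun d w hw h =>
    a4 d w hw 4 le_rfl (by simp [nrm, (aeval_bar_eq_zero hy.ne hw).2 h])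
  refine ⟨i, j, if ctr (bar v y) P ∈ Y then 1 else 0, γ, ⟨⟨a1, a2, fun a => ?_,
    this m e he.good.1 (Place.ge_of_le he.one.ge)⟩, fun hc a => ?_⟩, ⟨_, a3⟩, ?_⟩
  · obtain ⟨d, h, h'⟩ := hg.1 a
    exact this d _ h (by simp [nrm, h'])
  · refine (hY a).imp_right fun ⟨x, hx, h⟩ e => ?_
    rw [pt_eq a3 (h.symm.trans e), if_pos hx] at hc
    simp at hc
  · intro k hk w hw h r
    have := a4 m w hw (k + if ctr (bar v y) P ∈ Y then 1 else 0) (by split_ifs <;> omega)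
      (by simpa [ind] using h)
    exact Polynomial.X_pow_dvd_iff.1 this _ (by split_ifs <;> simp <;> omega)

lemma norm_ab {a b : K} (h : a ≠ 0 ∨ b ≠ 0) : ∃ (p : K × K) (s : K), AB p ∧
    ∀ w₁ w₂ : MvPolynomial ι K, p.1 • w₁ + p.2 • w₂ = s • (a • w₁ + b • w₂) := by
  rcases h with h | h
  · exact ⟨(1, a⁻¹ * b), a⁻¹, Or.inl rfl, fun _ _ => by simp [smul_smul, h]⟩
  · exact ⟨(b⁻¹ * a, 1), b⁻¹, Or.inr rfl, fun _ _ => by simp [smul_smul, h]⟩

variable (g) in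
/-- The bad pencils. -/
def Bad (e : MvPolynomial ι K) (yv : Fin 2 → ι → K) (w₁ w₂ : MvPolynomial ι K) : Prop :=
  ∃ i j c, (∃ γ, PtJ g e yv i j c γ ∧ Vn c 1 γ w₁ ∧ Vn c 1 γ w₂) ∨
    (∃ s : JT K ι × K × K, (PtJ g e yv i j c s.1 ∧ AB s.2) ∧
      Vn c 3 s.1 (s.2.1 • w₁ + s.2.2 • w₂)) ∨
    ∃ i' j' c', ∃ s : JT K ι × JT K ι × K × K,
      (PtJ g e yv i j c s.1 ∧ PtJ g e yv i' j' c' s.2.1 ∧ AB s.2.2) ∧
      z0 (up s.2.1) ≠ z0 (up s.2.1) i • z0 (up s.1) ∧ Vn c 2 s.1 (s.2.2.1 • w₁ + s.2.2.2 • w₂) ∧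
        Vn c' 2 s.2.1 (s.2.2.1 • w₁ + s.2.2.2 • w₂)

lemma gpen (hF : St_FF) (hC : St_CM1) (h2 : St_LOC2) (hy : Surf K y) (hg : Gens y g)
    (he : GC y m e v) {Y : Finset (Pt K ι)} {yv : Fin 2 → ι → K}
    (hY : ∀ a, yv a = 0 ∨ ∃ x ∈ Y, yv a = x.rep) {w₁ w₂ : MvPolynomial ι K}
    (g1 : w₁.IsHomogeneous m) (g2 : w₂.IsHomogeneous m) (h : ¬ Bad g e yv w₁ w₂) :
    GPen (bar v y) m Y w₁ w₂ := by
  have hh := fun a b : K => (hom_smul g1 a).add (hom_smul g2 b)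
  refine ⟨fun P hP => h ?_, fun a b hab P hP => h ?_, fun a b hab P P' hne hP => h ?_⟩
  · obtain ⟨i, j, c, γ, b1, -, b3⟩ := ev_place hF hC h2 hy hg he hY P
    exact ⟨i, j, c, Or.inl ⟨γ, b1, b3 1 (by omega) _ g1 hP.1, b3 1 (by omega) _ g2 hP.2⟩⟩
  · obtain ⟨i, j, c, γ, b1, -, b3⟩ := ev_place hF hC h2 hy hg he hY P
    obtain ⟨p, s, hp, hs⟩ := norm_ab (ι := ι) hab
    refine ⟨i, j, c, Or.inr (Or.inl ⟨(γ, p), ⟨b1, hp⟩, b3 3 le_rfl _ (hh _ _) ?_⟩)⟩
    rw [hs, nrm_smul]; exact hP.smul s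
  · obtain ⟨i, j, c, γ, b1, ⟨t, b2⟩, b3⟩ := ev_place hF hC h2 hy hg he hY P
    obtain ⟨i', j', c', γ', b1', ⟨t', b2'⟩, b3'⟩ := ev_place hF hC h2 hy hg he hY P'
    obtain ⟨p, s, hp, hs⟩ := norm_ab (ι := ι) hab
    refine ⟨i, j, c, Or.inr (Or.inr ⟨i', j', c', (γ, γ', p), ⟨b1, b1', hp⟩, fun e => hne ?_,
      b3 2 (by omega) _ (hh _ _) ?_, b3' 2 (by omega) _ (hh _ _) ?_⟩)⟩
    · rw [show z0 (up γ') = _ from e, smul_smul] at b2'
      exact hC.smu K _ ι _ (h2.crv K L ι y hy v he.cur) P' P (he.br P').sm (pt_eq b2 b2')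
    · rw [hs, nrm_smul]; exact hP.1.smul s
    · rw [hs, nrm_smul]; exact hP.2.smul s

lemma df_bad {X : Type} [AddCommGroup X] [Module K X] [Module.Finite K X]
    {e w₁ w₂ : X → MvPolynomial ι K} {yv : X → Fin 2 → ι → K} (he : PM K e) (hy : PM K yv)
    (h1 : PM K w₁) (h2 : PM K w₂) : Df K fun x => Bad g (e x) (yv x) (w₁ x) (w₂ x) :=
  Df.fex fun i => Df.fex fun j => Df.fex fun c =>
    (Df.ex ((df_pt g (by fun_prop) (by fun_prop) (by fun_prop) i j c).and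
      ((df_vn c 1 (by fun_prop) (by fun_prop)).and (df_vn c 1 (by fun_prop) (by fun_prop))))).or <|
    (Df.ex (((df_pt g (by fun_prop) (by fun_prop) (by fun_prop) i j c).and
      (df_ab (by fun_prop))).and (df_vn c 3 (by fun_prop) (by fun_prop)))).or <|
    Df.fex fun i' => Df.fex fun j' => Df.fex fun c' =>
      Df.ex (((df_pt g (by fun_prop) (by fun_prop) (by fun_prop) i j c).and
        ((df_pt g (by fun_prop) (by fun_prop) (by fun_prop) i' j' c').and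
          (df_ab (by fun_prop)))).and ((Df.ne (by fun_prop)
            (((pm_z0 (by fun_prop)).apply' i).smul (by fun_prop))).and
              ((df_vn c 2 (by fun_prop) (by fun_prop)).and (df_vn c' 2 (by fun_prop) (by fun_prop)))))

lemma thin_bad (hT : St_TAN) (h2 : St_LOC2) (hy : Surf K y) (hg : Gens y g) (he : GC y m e v)
    (hm : 7 ≤ m) {Y : Finset (Pt K ι)} {yv : Fin 2 → ι → K} (hY : ∀ x ∈ Y, ∃ a, yv a = x.rep)
    {T : Type} [AddCommGroup T] [Module K T] [Module.Finite K T]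
    (E₁ E₂ : T →ₗ[K] MvPolynomial ι K) (hE : ∀ w : MvPolynomial ι K, w.IsHomogeneous m →
      (∀ x ∈ Y, eval x.rep w = 0) → (∃ τ, E₁ τ = w ∧ E₂ τ = 0) ∧ ∃ τ, E₁ τ = 0 ∧ E₂ τ = w) :
    Thin K fun τ => Bad g e yv (E₁ τ) (E₂ τ) := by
  have p1 : PM K E₁ := .of_lin _
  have p2 : PM K E₂ := .of_lin _
  have hE' : ∀ p : K × K, AB p → ∀ w : MvPolynomial ι K, w.IsHomogeneous m →
      (∀ x ∈ Y, eval x.rep w = 0) → ∃ τ, (p.1 • E₁ + p.2 • E₂) τ = w := fun p hp w a b => by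
    obtain ⟨⟨τ, h1, h2⟩, τ', h3, h4⟩ := hE w a b
    rcases hp with h | h
    · exact ⟨τ, by simp [h, h1, h2]⟩
    · exact ⟨τ', by simp [h, h3, h4]⟩
  have dP : ∀ i j c, Df K (PtJ g e yv i j c) := fun i j c =>
    df_pt g (by fun_prop) (by fun_prop) PM.id' i j c
  have dA : Df K (AB (K := K)) := df_ab PM.id'
  have d1 : ∀ i j c, DimLe K (PtJ g e yv i j c) 1 := fun i j c =>
    (dim_jet hT h2 hy hg he i j).mono fun _ h => h.1
  have h1 := isHomogeneous_one ι K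
  refine Thin.fex fun i => Thin.fex fun j => Thin.fex fun c => Thin.or ?_ (Thin.or ?_
    (Thin.fex fun i' => Thin.fex fun j' => Thin.fex fun c' => ?_))
  · refine Thin.of_conds (c := 2) (((dP i j c).comp (by fun_prop)).and
      ((df_vn c 1 (by fun_prop) (by fun_prop)).and (df_vn c 1 (by fun_prop) (by fun_prop))))
      ((d1 i j c).mono fun _ ⟨_, h, _⟩ => h) (by omega) fun γ τ₀ h => ⟨LinearMap.pi
        ![cf γ (c + 0) ∘ₗ E₁, cf γ (c + 0) ∘ₗ E₂], surj_tri _ fun a => ?_, fun τ h' => ?_⟩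
    · obtain ⟨w, w1, w2, w3, -⟩ := wit h.1 hY h1 (by simp) (r := 0) (m := m) (by omega)
      obtain ⟨⟨τ, e1, e2⟩, τ', e3, e4⟩ := hE _ w1 w2
      fin_cases a
      · exact ⟨τ, by simpa [cf, e1] using w3, by simp⟩
      · exact ⟨τ', by simpa [cf, e4] using w3, fun b hb => by fin_cases b <;> simp_all⟩
    · ext a
      fin_cases a
      exacts [(h'.2.1 0).trans (h.2.1 0).symm, (h'.2.2 0).trans (h.2.2 0).symm]
  · refine Thin.of_conds (c := 3) ((((dP i j c).comp (by fun_prop)).and (df_ab (by fun_prop))).and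
      (df_vn c 3 (by fun_prop) (by fun_prop)))
      ((DimLe.prod (dP i j c) dA (d1 i j c) dim_ab).mono fun _ ⟨_, h, _⟩ => h) (by omega)
      fun s τ₀ h => ⟨LinearMap.pi fun r : Fin 3 => cf s.1 (c + r) ∘ₗ (s.2.1 • E₁ + s.2.2 • E₂),
        surj_tri _ fun a => ?_, fun τ h' => funext fun a => (h'.2 a).trans (h.2 a).symm⟩
    obtain ⟨w, w1, w2, w3, w4⟩ := wit h.1.1 hY h1 (by simp) (r := a) (m := m) (by omega)
    obtain ⟨τ, hτ⟩ := hE' _ h.1.2 _ w1 w2
    exact ⟨τ, by rw [← hτ] at w3; exact w3, fun b hb => by rw [← hτ] at w4; exact w4 b hb⟩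
  · refine Thin.of_conds (c := 4) ((((dP i j c).comp (by fun_prop)).and
      (((dP i' j' c').comp (by fun_prop)).and (df_ab (by fun_prop)))).and ((Df.ne (by fun_prop)
        (((pm_z0 (by fun_prop)).apply' i).smul (by fun_prop))).and
          ((df_vn c 2 (by fun_prop) (by fun_prop)).and (df_vn c' 2 (by fun_prop) (by fun_prop)))))
      ((DimLe.prod (dP i j c) (((dP i' j' c').comp (by fun_prop)).and (df_ab (by fun_prop)))
        (d1 i j c) (DimLe.prod (dP i' j' c') dA (d1 i' j' c') dim_ab)).mono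
          fun _ ⟨_, h, _⟩ => h) (by omega) fun s τ₀ h => ⟨LinearMap.pi ![cf s.2.1 (c' + 0),
            cf s.2.1 (c' + 1), cf s.1 (c + 0), cf s.1 (c + 1)] ∘ₗ (s.2.2.1 • E₁ + s.2.2.2 • E₂),
              surj_tri _ fun a => ?_, fun τ h' => ?_⟩
    · obtain ⟨l, l1, l2, l3⟩ := sep h.1.1.1.zi h.2.1
      have k1 : ∀ r ≤ 1, ∃ τ, cf s.2.1 (c' + r) ((s.2.2.1 • E₁ + s.2.2.2 • E₂) τ) ≠ 0 ∧
          ∀ r' < r, cf s.2.1 (c' + r') ((s.2.2.1 • E₁ + s.2.2.2 • E₂) τ) = 0 := fun r hr => by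
        obtain ⟨w, w1, w2, w3⟩ := wit h.1.2.1 hY h1 (by simp) (r := r) (m := m) (by omega)
        obtain ⟨τ, hτ⟩ := hE' _ h.1.2.2 _ w1 w2
        exact ⟨τ, hτ ▸ w3⟩
      have k2 : ∀ r ≤ 1, ∃ τ, (cf s.1 (c + r) ((s.2.2.1 • E₁ + s.2.2.2 • E₂) τ) ≠ 0 ∧
          ∀ r' < r, cf s.1 (c + r') ((s.2.2.1 • E₁ + s.2.2.2 • E₂) τ) = 0) ∧
          ∀ r' ≤ 1, cf s.2.1 (c' + r') ((s.2.2.1 • E₁ + s.2.2.2 • E₂) τ) = 0 := fun r hr => by
        obtain ⟨w, w1, w2, w3⟩ := wit h.1.1 hY (l1.pow 3) (by simpa using l3) (r := r) (m := m)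
          (by omega)
        obtain ⟨τ, hτ⟩ := hE' _ h.1.2.2 _ w1 w2
        refine ⟨τ, hτ ▸ w3, fun r' hr' => ?_⟩
        have : Polynomial.X ^ 3 ∣ aeval (up s.2.1) (l ^ 3 * w) := by
          rw [map_mul, map_pow]
          refine (pow_dvd_pow_of_dvd (Polynomial.X_dvd_iff.2 ?_) 3).mul_right _
          rw [coeff_zero_aeval, l2]
        rw [hτ]
        exact Polynomial.X_pow_dvd_iff.1 this _ (by omega)
      fin_cases a
      · obtain ⟨τ, a1, -⟩ := k1 0 (by omega)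
        exact ⟨τ, a1, by simp⟩
      · obtain ⟨τ, a1, a2⟩ := k1 1 le_rfl
        refine ⟨τ, a1, fun b hb => ?_⟩
        fin_cases b
        · exact a2 0 one_pos
        all_goals simp at hb
      · obtain ⟨τ, ⟨a1, -⟩, a3⟩ := k2 0 (by omega)
        refine ⟨τ, a1, fun b hb => ?_⟩
        fin_cases b
        · exact a3 0 (by omega)
        · exact a3 1 le_rfl
        all_goals simp at hb
      · obtain ⟨τ, ⟨a1, a2⟩, a3⟩ := k2 1 le_rfl
        refine ⟨τ, a1, fun b hb => ?_⟩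
        fin_cases b
        · exact a3 0 (by omega)
        · exact a3 1 le_rfl
        · exact a2 0 one_pos
        · simp at hb
    · ext a
      fin_cases a
      exacts [(h'.2.2.2 0).trans (h.2.2.2 0).symm, (h'.2.2.2 1).trans (h.2.2.2 1).symm,
        (h'.2.2.1 0).trans (h.2.2.1 0).symm, (h'.2.2.1 1).trans (h.2.2.1 1).symm]

end GP7

open GP7 Gen in
theorem stGENP7 (hT : St_TAN) (hF : St_FF) (hC : St_CM1) (h1 : St_LOC1) (h2 : St_LOC2) :
    St_GENP := by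
  intro K L ι _ _ _ _ _ _ y hy m hm
  obtain ⟨n, g, hg⟩ := h1.gens K L ι y
  let V := homogeneousSubmodule ι K m
  obtain ⟨C, hC'⟩ := (df_bad (g := g) (X := (V × (Fin 2 → ι → K)) × V × V) (e := fun x => x.1.1)
    (yv := fun x => x.1.2) (w₁ := fun x => x.2.1) (w₂ := fun x => x.2.2) (by fun_prop)
    (by fun_prop) (by fun_prop) (by fun_prop)).unif_aff
  refine ⟨C, fun e v he Y hY J _ u hu hs => ?_⟩
  obtain ⟨f⟩ := Function.Embedding.nonempty_of_card_le (α := Y) (β := Fin 2) (by simpa using hY)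
  let yv : Fin 2 → ι → K := Function.extend f (fun x => x.1.rep) 0
  let E : Fin 2 → (Fin 2 × J → K) →ₗ[K] V := fun a =>
    Fintype.linearCombination K (fun j => (⟨u j, hu j⟩ : V)) ∘ₗ LinearMap.funLeft K K (a, ·)
  have hE : ∀ a τ, (E a τ).1 = ∑ j, τ (a, j) • u j := fun a τ => by
    simp [E, Fintype.linearCombination_apply]
  obtain ⟨h, h0, h3, h4⟩ := hC' _ ((⟨e, he.good.1⟩, yv), 0) (LinearMap.prod 0 ((E 0).prod (E 1)))
    ((thin_bad hT h2 hy hg he hm (Y := Y) (yv := yv)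
      (fun x hx => ⟨f ⟨x, hx⟩, f.injective.extend_apply _ _ _⟩) (V.subtype ∘ₗ E 0)
      (V.subtype ∘ₗ E 1) fun w a b => by
        obtain ⟨c, rfl⟩ := (Submodule.mem_span_range_iff_exists_fun K).1 (hs w a b)
        exact ⟨⟨fun p => if p.1 = 0 then c p.2 else 0, by simp [hE]⟩,
          fun p => if p.1 = 1 then c p.2 else 0, by simp [hE]⟩).mono fun τ h => by simpa using h)
  refine ⟨h, h0, h3, fun τ hτ => ?_⟩
  rw [← hE, ← hE]
  refine gpen hF hC h2 hy hg he (yv := yv) (fun a => ?_) (E 0 τ).2 (E 1 τ).2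
    fun hb => hτ (h4 τ (by simpa using hb))
  by_cases ha : ∃ x, f x = a
  · obtain ⟨x, rfl⟩ := ha
    exact Or.inr ⟨x, x.2, f.injective.extend_apply _ _ _⟩
  · exact Or.inl (Function.extend_apply' _ _ _ ha)

end Pool.Agent.Lib.PK1
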