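import Pool.Agent.Lib.PK1.BERT
import Pool.Agent.Lib.PK1.Gen7D

/-! Normalised jets of a smooth curve. -/

open MvPolynomial Pool.Agent.Lib.MP_e06174_ag
open scoped Classical Polynomial

set_option linter.unusedSectionVars false

noncomputable section

namespace Pool.Agent.Lib.PK1.GP7

open Gen JAC BERT

variable {K F ι : Type} [Field K] [Field F] [Algebra K F] [Fintype ι]

/-- Constant terms. -/
def z0 (Γ : ι → K[X]) : ι → K := fun k => (Γ k).coeff 0

lemma coeff_zero_aeval (Γ : ι → K[X]) (f : MvPolynomial ι K) :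
    (aeval Γ f).coeff 0 = eval (z0 Γ) f := by
  induction f using MvPolynomial.induction_on with
  | C a => simp
  | add p q hp hq => simp only [map_add, Polynomial.coeff_add, hp, hq]
  | mul_X p k hp => simp only [map_mul, Polynomial.mul_coeff_zero, hp, aeval_X, eval_X, z0]

lemma tay {Γ Γ' D : ι → K[X]} {n : ℕ} (hn : 0 < n)
    (h : ∀ k, Γ k = Γ' k + Polynomial.X ^ n * D k) (f : MvPolynomial ι K) :
    ∃ R, aeval Γ f = aeval Γ' f + Polynomial.X ^ n * R ∧ R.coeff 0 = dirD (z0 Γ') (z0 D) f := by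
  induction f using MvPolynomial.induction_on with
  | C a => exact ⟨0, by simp, by simp [dirD_C]⟩
  | add p q hp hq =>
    obtain ⟨R, h1, h2⟩ := hp
    obtain ⟨S, h3, h4⟩ := hq
    exact ⟨R + S, by rw [map_add, map_add, h1, h3]; ring, by simp [h2, h4, dirD_add]⟩
  | mul_X p k hp =>
    obtain ⟨R, h1, h2⟩ := hp
    refine ⟨R * Γ' k + aeval Γ' p * D k + Polynomial.X ^ n * (R * D k), ?_, ?_⟩
    · rw [map_mul, map_mul, h1, aeval_X, aeval_X, h k]; ring
    · rw [dirD_mul, dirD_X, aeval_X, aeval_eq_eval, ← h2, ← coeff_zero_aeval]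
      simp [z0, hn.ne]

lemma tay_dvd {Γ Γ' D : ι → K[X]} {n : ℕ} (hn : 0 < n)
    (h : ∀ k, Γ k = Γ' k + Polynomial.X ^ n * D k) {f : MvPolynomial ι K}
    (h1 : Polynomial.X ^ (n + 1) ∣ aeval Γ f - aeval Γ' f) : dirD (z0 Γ') (z0 D) f = 0 := by
  obtain ⟨R, h2, h3⟩ := tay hn h f
  rw [h2, add_sub_cancel_left, pow_succ,
    mul_dvd_mul_iff_left (pow_ne_zero _ Polynomial.X_ne_zero), Polynomial.X_dvd_iff] at h1
  rwa [← h3]

/-- Normalised jets killing a family of polynomials. -/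
structure Jet {n : ℕ} (g : Fin n → MvPolynomial ι K) (e : MvPolynomial ι K) (i j : ι)
    (Γ : ι → K[X]) : Prop where
  hi : Γ i = 1
  hj : Γ j = Polynomial.C ((Γ j).coeff 0) + Polynomial.X
  hg : ∀ a, Polynomial.X ^ 4 ∣ aeval Γ (g a)
  he : Polynomial.X ^ 4 ∣ aeval Γ e

lemma eval_of_dvd {Γ : ι → K[X]} {f : MvPolynomial ι K} {n : ℕ}
    (h : Polynomial.X ^ (n + 1) ∣ aeval Γ f) : eval (z0 Γ) f = 0 := by
  rw [← coeff_zero_aeval, ← Polynomial.X_dvd_iff]
  exact (dvd_pow_self _ n.succ_ne_zero).trans h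

variable {n : ℕ} {g : Fin n → MvPolynomial ι K} {e : MvPolynomial ι K} {i j : ι} {Γ Γ' : ι → K[X]}

lemma Jet.zi (h : Jet g e i j Γ) : z0 Γ i = 1 := by simp [z0, h.hi]

lemma Jet.inj (h : Jet g e i j Γ) {m : ℕ} (he : e.IsHomogeneous m)
    (h3 : Module.finrank K (tsp g (z0 Γ)) = 3) (hz : z0 Γ ∈ tsp g (z0 Γ))
    (h0 : ∃ ξ ∈ tsp g (z0 Γ), dirD (z0 Γ) ξ e ≠ 0) {δ : ι → K} (h1 : δ ∈ tsp g (z0 Γ))
    (h2 : dirD (z0 Γ) δ e = 0) (hi : δ i = 0) (hj : δ j = 0) : δ = 0 := by
  let D : (ι → K) →ₗ[K] K :=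
    { toFun := fun ξ => dirD (z0 Γ) ξ e
      map_add' := fun a b => dirD_add_left _ _
      map_smul' := fun a b => dirD_smul_left _ _ }
  let Φ : tsp g (z0 Γ) →ₗ[K] (Fin 3 → K) :=
    LinearMap.pi ![D, LinearMap.proj i, LinearMap.proj j] ∘ₗ (tsp g (z0 Γ)).subtype
  have hd : ∀ k, Γ k = Polynomial.C (z0 Γ k) + Polynomial.X ^ 1 * (Γ k).divX := fun k => by
    rw [pow_one, add_comm]; exact (Polynomial.X_mul_divX_add _).symm
  have hc : z0 (fun k => Polynomial.C (z0 Γ k)) = z0 Γ := by ext k; simp [z0]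
  have key : ∀ f, Polynomial.X ^ 4 ∣ aeval Γ f → dirD (z0 Γ) (z0 fun k => (Γ k).divX) f = 0 :=
    fun f hf => by
    rw [← hc]
    refine tay_dvd one_pos hd ?_
    have : aeval (fun k => Polynomial.C (z0 Γ k)) f = Polynomial.C (eval (z0 Γ) f) :=
      (aeval_algebraMap_apply K[X] (z0 Γ) f)
    rw [this, eval_of_dvd hf, map_zero, sub_zero]
    exact (pow_dvd_pow _ (by omega)).trans hf
  have hs : Function.Surjective Φ := surj_tri Φ fun a => by
    fin_cases a
    · obtain ⟨ξ, h, h'⟩ := h0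
      exact ⟨⟨ξ, h⟩, h', by simp⟩
    · refine ⟨⟨_, hz⟩, h.zi.trans_ne one_ne_zero, fun b hb => ?_⟩
      fin_cases b
      · exact (dirD_self he).trans (mul_eq_zero_of_right _ (eval_of_dvd h.he))
      all_goals simp at hb
    · refine ⟨⟨_, fun a => key _ (h.hg a)⟩, ?_, fun b hb => ?_⟩
      · change (Γ j).divX.coeff 0 ≠ 0
        rw [Polynomial.coeff_divX, h.hj]; simp
      fin_cases b
      · exact key _ h.he
      · change (Γ i).divX.coeff 0 = 0
        rw [Polynomial.coeff_divX, h.hi]; simp [Polynomial.coeff_one]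
      · simp at hb
  have := (LinearMap.injective_iff_surjective_of_finrank_eq_finrank (by simp [h3])).2 hs
  refine congrArg Subtype.val ((injective_iff_map_eq_zero Φ).1 this ⟨δ, h1⟩ ?_)
  ext a
  fin_cases a
  exacts [h2, hi, hj]

lemma Jet.uniq (h : Jet g e i j Γ) (h' : Jet g e i j Γ') (hz : z0 Γ = z0 Γ')
    (H : ∀ δ ∈ tsp g (z0 Γ'), dirD (z0 Γ') δ e = 0 → δ i = 0 → δ j = 0 → δ = 0) (k : ι) :
    Polynomial.X ^ 4 ∣ Γ k - Γ' k := by
  have : ∀ r, r ≤ 3 → ∀ k, Polynomial.X ^ (r + 1) ∣ Γ k - Γ' k := by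
    intro r
    induction r with
    | zero => exact fun _ k => by simpa [Polynomial.X_dvd_iff, sub_eq_zero, z0] using congrFun hz k
    | succ r ih =>
      intro hr k
      choose D hD using ih (by omega)
      have hd : ∀ k, Γ k = Γ' k + Polynomial.X ^ (r + 1) * D k := fun k => by rw [← hD]; ring
      have key : ∀ f, Polynomial.X ^ 4 ∣ aeval Γ f → Polynomial.X ^ 4 ∣ aeval Γ' f →
          dirD (z0 Γ') (z0 D) f = 0 := fun f a b =>
        tay_dvd r.succ_pos hd ((pow_dvd_pow _ (by omega)).trans (dvd_sub a b))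
      have h0 : ∀ k, Γ k = Γ' k → z0 D k = 0 := fun k hk => by
        have := hD k
        rw [hk, sub_self, eq_comm, mul_eq_zero] at this
        simp [z0, this.resolve_left (pow_ne_zero _ Polynomial.X_ne_zero)]
      have := H _ (fun a => key _ (h.hg a) (h'.hg a)) (key _ h.he h'.he)
        (h0 i (h.hi.trans h'.hi.symm)) (h0 j (by
          rw [h.hj, h'.hj]; exact congrArg (Polynomial.C · + _) (congrFun hz j)))
      rw [hD, pow_succ _ (r + 1)]
      exact mul_dvd_mul_left _ (Polynomial.X_dvd_iff.2 (congrFun this k))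
  exact this 3 le_rfl k

section place

variable {P : Place K F} {π : F}

lemma ge_paeval (h : P.Ge 0 π) (p : K[X]) : P.Ge 0 (Polynomial.aeval π p) := by
  rw [Polynomial.aeval_eq_sum_range]
  exact Place.Ge.sum fun i _ => Place.Ge.smul (by simpa using h.pow i) _

lemma dvd_of_ge (h0 : π ≠ 0) (h : P.ord π = 1) {n : ℕ} {p : K[X]}
    (hp : P.Ge n (Polynomial.aeval π p)) : Polynomial.X ^ n ∣ p := by
  induction n with
  | zero => simp
  | succ n ih =>
    obtain ⟨q, rfl⟩ := ih (hp.mono (by omega))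
    rw [pow_succ]
    refine mul_dvd_mul_left _ (Polynomial.X_dvd_iff.2 ?_)
    have h1 : P.Ge 1 (Polynomial.aeval π q) := by
      have := hp.mul (Place.ge_ord (π ^ n)⁻¹)
      rw [map_mul, map_pow, Polynomial.aeval_X, mul_right_comm,
        mul_inv_cancel₀ (pow_ne_zero _ h0), one_mul] at this
      simpa [h] using this
    have h2 : P.Ge 1 (π * Polynomial.aeval π q.divX) :=
      (Place.ge_of_le h.ge).mul' (ge_paeval (Place.ge_of_le (by omega)) _) (by simp)
    have := h1.sub h2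
    have e := congrArg (Polynomial.aeval π) (Polynomial.X_mul_divX_add q)
    rw [← e, map_add, map_mul, Polynomial.aeval_X, add_sub_cancel_left, Polynomial.aeval_C] at this
    exact Place.eq_zero_of_ge_one_const this

lemma exists_exp (hv : ∀ z, P.Ge 0 z → ∃ c : K, P.At z c) (h0 : π ≠ 0) (h : P.ord π = 1) {u : F}
    (hu : P.Ge 0 u) (n : ℕ) : ∃ p : Polynomial.degreeLT K n,
      P.Ge n (u - Polynomial.aeval π p.1) := by
  induction n with
  | zero => exact ⟨0, by simpa using hu⟩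
  | succ n ih =>
    obtain ⟨p, hp⟩ := ih
    obtain ⟨c, hc⟩ := hv _ (hp.mul' (Place.ge_ord (π ^ n)⁻¹) (by simp [h]))
    refine ⟨⟨p + Polynomial.monomial n c, add_mem (Polynomial.degreeLT_mono (by omega) p.2)
      (Polynomial.mem_degreeLT.2 ((Polynomial.degree_monomial_le _ _).trans_lt
        (by exact_mod_cast n.lt_succ_self)))⟩, ?_⟩
    have := Place.Ge.mul' (l := (n + 1 : ℕ)) hc (Place.ge_ord (π ^ n)) (by simp [h, add_comm])
    convert this using 1
    simp only [map_add, Polynomial.aeval_monomial]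
    field_simp
    ring

lemma ge_aeval_sub {n : ℤ} {a b : ι → F} (ha : ∀ k, P.Ge 0 (a k)) (hb : ∀ k, P.Ge 0 (b k))
    (h : ∀ k, P.Ge n (a k - b k)) (f : MvPolynomial ι K) : P.Ge n (aeval a f - aeval b f) := by
  induction f using MvPolynomial.induction_on with
  | C a => simp
  | add p q hp hq => simpa only [map_add, add_sub_add_comm] using hp.add hq
  | mul_X p k hp =>
    have := (hp.mul' (ha k) (by simp)).add ((ge_aeval hb p).mul' (h k) (le_of_eq (zero_add n).symm))
    convert this using 1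
    simp only [map_mul, aeval_X]; ring

end place

/-- The jet of a smooth branch. -/
lemma exists_jet [IsAlgClosed K] [Nonempty ι] (hF : St_FF) (hC : St_CM1) {η : ι → F}
    (hη : Crv K η) (P : Place K F) (hP : Sm η P) :
    ∃ (i j : ι) (γ : ι → Polynomial.degreeLT K 4), (γ i).1 = 1 ∧
      (γ j).1 = Polynomial.C ((γ j).1.coeff 0) + Polynomial.X ∧
      (ctr η P).rep = (ctr η P).rep i • z0 (fun k => (γ k).1) ∧
      ∀ (d : ℕ) (w : MvPolynomial ι K), w.IsHomogeneous d → ∀ n : ℕ, n ≤ 4 →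
        P.Ge n (nrm P η d w) → Polynomial.X ^ n ∣ aeval (fun k => (γ k).1) w := by
  obtain ⟨t, ht⟩ := hC.ff K F ι η hη
  obtain ⟨-, c2, c3, c4, c5⟩ := hC.ctr K F ι η hη P
  set x := ctr η P
  let r : ι → F := fun k => η k / η (ix x)
  let z : ι → K := fun k => x.rep k / x.rep (ix x)
  have hr : ∀ d w, w.IsHomogeneous d → aeval r w = lc η x d w := fun d w h => aeval_div h _ _
  have hz : ∀ d w, w.IsHomogeneous d → (eval z w = 0 ↔ eval x.rep w = 0) := fun d w h => by
    have : eval z w = _ := aeval_div h (x.rep (ix x)) x.rep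
    simp [this, ix_ne, aeval_eq_eval]
  have r0 : ∀ k, P.Ge 0 (r k) := fun k => by
    simpa [← hr _ _ (isHomogeneous_X K k)] using c3 _ (c2.lc_mem (isHomogeneous_X K k))
  have r1 : ∀ k, P.Ge 1 (r k - algebraMap K F (z k)) := fun k => by
    have h : (X k - z k • X (ix x) : MvPolynomial ι K).IsHomogeneous 1 :=
      (isHomogeneous_X K k).sub (hom_smul (isHomogeneous_X K _) _)
    have := (c4 _ (c2.lc_mem h)).2 ((c2.lc_mx h).2 (by simp [z, ix_ne]))
    rw [← hr _ _ h] at this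
    simpa [r, c2.y_ix, Algebra.smul_def] using this
  have hc : ∀ w : MvPolynomial ι K,
      aeval (fun k => algebraMap K F (z k)) w = algebraMap K F (eval z w) :=
    fun w => aeval_algebraMap_apply F z w
  obtain ⟨j, hj⟩ : ∃ j, ¬ P.Ge 2 (r j - algebraMap K F (z j)) := by
    by_contra! h
    obtain ⟨π, h0, h1⟩ := P.exists_ord_eq_one
    have hO := hP π (Place.ge_of_le (by omega))
    obtain ⟨d, a, s, g1, g2, g3, g4, g5⟩ := (c4 _ hO).1 (Place.ge_of_le h1.ge)
    have a2 := ge_aeval_sub r0 (fun k => Place.ge_const _) h a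
    rw [hc, (hz _ _ g1).2 g4, map_zero, sub_zero, hr _ _ g1] at a2
    obtain ⟨s0, s1⟩ := c2.inv_mem (c2.lc_mem g2) (mt (c2.lc_mx g2).1 g3)
    have := a2.mul (c3 _ s1)
    rw [← div_eq_mul_inv, c2.lc_div, ← g5, mul_div_cancel_right₀ _ (c2.aeval_ne g2 g3)] at this
    have := this.le h0
    omega
  obtain ⟨h0, h1⟩ := Place.not_ge_iff.1 hj
  have h1 : P.ord (r j - algebraMap K F (z j)) = 1 := by have := (r1 j).le h0; omega
  set π := r j - algebraMap K F (z j) with hπ
  choose γ hγ using fun k => exists_exp (hF.val K F t ht P) h0 h1 (r0 k) 4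
  have hp : P.Ge 0 π := Place.ge_of_le (by omega)
  have eq : ∀ k (p : K[X]), p.degree < 4 → r k = Polynomial.aeval π p → (γ k).1 = p :=
    fun k p hp e => by
    refine (sub_eq_zero.1 (Polynomial.eq_zero_of_dvd_of_degree_lt
      (dvd_of_ge h0 h1 (n := 4) (by rw [map_sub, ← e]; exact hγ k)) ?_)).symm
    refine (Polynomial.degree_sub_le _ _).trans_lt ?_
    simpa using ⟨hp, Polynomial.mem_degreeLT.1 (γ k).2⟩
  have ej := eq j (Polynomial.C (z j) + Polynomial.X) (by compute_degree!) (by simp [hπ])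
  refine ⟨ix x, j, γ, eq _ 1 (by simp) (by simp [r, c2.y_ix]), by simp [ej], ?_, ?_⟩
  · ext k
    have := dvd_of_ge h0 h1 (n := 1) (p := (γ k).1 - Polynomial.C (z k)) (by
      simpa using (r1 k).sub ((hγ k).mono (by simp)))
    rw [pow_one, Polynomial.X_dvd_iff] at this
    have : (γ k).1.coeff 0 = z k := by simpa [sub_eq_zero] using this
    simp [z0, this, z, mul_div_cancel₀, ix_ne]
  · intro d w hw n hn h
    refine dvd_of_ge h0 h1 ?_
    have h2 : P.Ge n (aeval r w) := by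
      rw [hr _ _ hw]
      rcases Place.ge_iff'.1 h with h | h
      · have : aeval η w = 0 := by_contra fun e => (nrm_ne_zero hη.ne).2 e h
        simp [lc, this]
      · exact Place.ge_of_le ((c5 d w hw).2 ▸ h)
    have := h2.sub ((ge_aeval_sub r0 (fun k => ge_paeval hp _) hγ w).mono (by exact_mod_cast hn))
    rw [sub_sub_cancel] at this
    rwa [comp_aeval_apply]

end Pool.Agent.Lib.PK1.GP7
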