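import Pool.Agent.Lib.PK1.MWRAPM
import Pool.Agent.Lib.PK1.CFFA
import Pool.Agent.Lib.PK1.CBASE
import Pool.Agent.Lib.PK1.CNORM
import Pool.Agent.Lib.PK1.CRES
import Pool.Agent.Lib.PK1.CIRR
import Pool.Agent.Lib.PK1.CDISC
import Pool.Agent.Lib.PK1.CLINDIV
import Pool.Agent.Lib.PK1.CSZ
import Pool.Agent.Lib.PK1.CKBAS
import Pool.Agent.Lib.PK1.CGEN0
import Pool.Agent.Lib.PK1.CFIX
import Pool.Agent.Lib.PK1.MSYS2
import Pool.Agent.Lib.PK1.MSUB2
import Pool.Agent.Lib.PK1.MPEN2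
import Pool.Agent.Lib.PK1.MTANG
import Pool.Agent.Lib.PK1.MGAL2
import Pool.Agent.Lib.PK1.MGALT2
import Pool.Agent.Lib.PK1.MGALM
import Pool.Agent.Lib.PK1.MGALTM
import Pool.Agent.Lib.PK1.MSPLITM
import Pool.Agent.Lib.PK1.MCOERM
import Pool.Agent.Lib.PK1.MLWM2
import Pool.Agent.Lib.PK1.FF
import Pool.Agent.Lib.PK1.CM1

/-! Coercivity on several curves assembled. -/

namespace Pool.Agent.Lib.PK1

namespace Cnt

theorem resM : St_RES := stRES stBASE (stNORM stBASE)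

theorem gen0M : St_GEN0 := stGEN0 stBASE resM (stIRR stBASE) stDISC

theorem tangM : St_TANG :=
  stTANG stBASE resM (stSYS2 stBASE) (stSUB2 stBASE) (stIRR stBASE) stDISC stLINDIV

theorem galtM : St_GALTM :=
  stGALTM stBASE (stSYS2 stBASE) (stSUB2 stBASE) (stIRR stBASE) stDISC tangM
    (stGALT2 stBASE (stSYS2 stBASE) (stSUB2 stBASE) (stIRR stBASE) tangM stGAL2) stGALM

theorem splitM : St_SPLITM :=
  stSPLITM stBASE (stPEN2 stBASE resM gen0M stSZ) resM (stFIX stBASE gen0M stLINDIV)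
    (stSUB2 stBASE) stKBAS stDISC galtM all_LWM stSZ

end Cnt

theorem stH3M : St_H3M :=
  Cnt.stWRAPM Cnt.stFFA Cnt.stBASE (Cnt.stCOERM Cnt.stBASE Cnt.splitM) (stCM1 stFF)

end Pool.Agent.Lib.PK1
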