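import Pool.Agent.Lib.PK1.MDefs
import Pool.Agent.Lib.PK1.CLWB0
import Pool.Agent.Lib.PK1.CDISC
import Pool.Agent.Lib.PK1.CSZ
import Pool.Agent.Lib.PK1.CWrapA
import Pool.Agent.Lib.PK1.MCHEB
import Pool.Agent.Lib.PK1.MSEPM

/-! The count in several variables from the count on lines. -/

open Polynomial Finset
open scoped Classical

namespace Pool.Agent.Lib.PK1.Cnt

/-- Most lines through an unramified point keep the order of the Galois group. -/
def St_LWG : Prop :=
  ∀ n d : ℕ, ∃ B : ℕ, ∀ (K τ : Type) [Field K] [IsAlgClosed K] [Fintype τ]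
    (P : (MvPolynomial τ K)[X]), P.Monic → P.natDegree = n → (∀ j, (P.coeff j).totalDegree ≤ d) →
    ∀ t0 : τ → K, (P.map (MvPolynomial.eval t0)).Separable →
    ∃ Ψ : MvPolynomial τ K, Ψ ≠ 0 ∧ Ψ.totalDegree ≤ B ∧ ∀ t1 : τ → K,
      MvPolynomial.eval t1 Ψ ≠ 0 →
      ((P.map (lineMap t0 t1)).map (algebraMap K[X] (RatFunc K))).Separable ∧
      Nat.card (gen P).Gal ≤ Module.finrank (RatFunc K)
        ((P.map (lineMap t0 t1)).map (algebraMap K[X] (RatFunc K))).SplittingField

namespace LWM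

lemma dc {k V : Type} [Field k] [Fintype k] [AddCommGroup V] [Module k V] [Fintype V]
    (S : V → Prop) (t0 : V) :
    ∃ e : ℕ, e ≤ Fintype.card V ∧ ∑ t1 : V, (univ.filter fun s : k => S (t0 + s • (t1 - t0))).card =
      (Fintype.card k - 1) * (univ.filter S).card + e := by
  refine ⟨(univ.filter fun t1 : V => S (t0 + (0 : k) • (t1 - t0))).card, card_le_univ _, ?_⟩
  simp only [card_filter]
  rw [sum_comm, ← add_sum_erase _ _ (mem_univ (0 : k)), add_comm]
  congr 1
  rw [← card_univ, ← card_erase_of_mem (mem_univ (0 : k)), ← smul_eq_mul, ← sum_const]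
  refine sum_congr rfl fun s hs => ?_
  have hs0 : s ≠ 0 := ne_of_mem_erase hs
  refine Fintype.sum_bijective (fun t1 => t0 + s • (t1 - t0)) ?_ _ _ fun _ => rfl
  refine Finite.injective_iff_bijective.1 fun x y h => ?_
  simpa [hs0] using h

lemma num {V : Type} [Fintype V] (c : V → ℕ) (bad : V → Prop) (N N0 B B1 q S e G Δ : ℕ)
    (hq : 2 ≤ q) (hN : N ≤ N0) (he : e ≤ Fintype.card V)
    (hs : ∑ t, c t = (q ^ 2 - 1) * S + e) (hc : ∀ t, c t ≤ q ^ 2)
    (hg : ∀ t, ¬bad t → q ^ 2 ≤ N * c t + B * q ∧ N * c t ≤ q ^ 2 + B * q)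
    (hb : (univ.filter bad).card * q ^ 2 ≤ B1 * Fintype.card V)
    (h1 : S ≤ G) (h2 : G ≤ S + Δ) (h3 : Δ * q ^ 2 ≤ B1 * Fintype.card V) :
    |(N : ℤ) * G - Fintype.card V| * q ≤
      (2 * (1 + N0 + B + N0 * B1 + B1) + N0 * B1 : ℕ) * (Fintype.card V : ℤ) := by
  set M := Fintype.card V with hM
  set β := (univ.filter bad).card with hβ
  have u1 : N * ∑ t, c t ≤ M * (q ^ 2 + B * q) + β * (N * q ^ 2) := by
    rw [mul_sum, hM, ← card_univ, hβ, card_filter, sum_mul, ← smul_eq_mul, ← sum_const,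
      ← sum_add_distrib]
    refine sum_le_sum fun t _ => ?_
    by_cases h : bad t
    · have := Nat.mul_le_mul_left N (hc t)
      simp only [h, if_true, one_mul]
      omega
    · simpa [h] using (hg t h).2
  have u2 : M * q ^ 2 ≤ N * ∑ t, c t + M * (B * q) + β * q ^ 2 := by
    rw [mul_sum, hM, ← card_univ, hβ, card_filter, sum_mul, ← smul_eq_mul, ← smul_eq_mul,
      ← sum_const, ← sum_const, ← sum_add_distrib, ← sum_add_distrib]
    refine sum_le_sum fun t _ => ?_
    by_cases h : bad t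
    · simp only [h, if_true, one_mul]
      omega
    · simpa [h] using (hg t h).1
  rw [hs] at u1 u2
  have hq4 : 1 ≤ q ^ 2 := Nat.one_le_pow _ _ (by omega)
  zify [hq4] at u1 u2 hb h1 h2 h3 hN he hq
  push_cast
  have p0 : (0 : ℤ) ≤ N := by positivity
  have pM : (0 : ℤ) ≤ M := by positivity
  have pB : (0 : ℤ) ≤ B := by positivity
  have pB1 : (0 : ℤ) ≤ B1 := by positivity
  have pe : (0 : ℤ) ≤ e := by positivity
  have pΔ : (0 : ℤ) ≤ Δ := by positivity
  have a1 : (β : ℤ) * (N * q ^ 2) ≤ N0 * B1 * M := by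
    have := mul_le_mul hN hb (by positivity) (by positivity)
    linarith
  have a2 : (N : ℤ) * e ≤ N0 * M := mul_le_mul hN he pe (by positivity)
  have a3 : |(N : ℤ) * S - M| * (q ^ 2 - 1) ≤ M * (1 + N0 + N0 * B1 + B1 + B * q) := by
    rw [← abs_of_nonneg (show (0 : ℤ) ≤ q ^ 2 - 1 by nlinarith), ← abs_mul, abs_le]
    have : (0 : ℤ) ≤ N * e := by positivity
    have : (0 : ℤ) ≤ N0 * M := by positivity
    have : (0 : ℤ) ≤ N0 * B1 * M := by positivity
    have : (0 : ℤ) ≤ B1 * M := by positivity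
    constructor <;> nlinarith
  have a4 : |(N : ℤ) * S - M| * q ≤ 2 * (1 + N0 + B + N0 * B1 + B1) * M := by
    have hx := abs_nonneg ((N : ℤ) * S - M)
    generalize |(N : ℤ) * S - M| = x at *
    have pc : (0 : ℤ) ≤ M * (1 + N0 + N0 * B1 + B1) := by positivity
    refine le_of_mul_le_mul_right ?_ (show (0 : ℤ) < q by omega)
    have b1 : x * q * q ≤ 2 * (x * (q ^ 2 - 1)) := by nlinarith [mul_nonneg hx (show (0 : ℤ) ≤ q ^ 2 - 2 by nlinarith)]
    nlinarith [mul_le_mul_of_nonneg_left (show (1 : ℤ) ≤ q by omega) pc]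
  have a5 : (N : ℤ) * Δ * q ≤ N0 * B1 * M := by
    have b1 : (Δ : ℤ) * q ≤ B1 * M := by nlinarith [mul_nonneg pΔ (show (0 : ℤ) ≤ q ^ 2 - q by nlinarith)]
    have := mul_le_mul hN b1 (by positivity) (by positivity)
    linarith
  have a6 : |(N : ℤ) * G - M| ≤ |(N : ℤ) * S - M| + N * Δ := by
    have := abs_add_le ((N : ℤ) * S - M) (N * (G - S))
    rw [abs_of_nonneg (show (0 : ℤ) ≤ N * (G - S) from mul_nonneg p0 (by omega))] at this
    have b2 := mul_le_mul_of_nonneg_left (show (G : ℤ) - S ≤ Δ by omega) p0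
    calc _ = |(N : ℤ) * S - M + N * (G - S)| := by ring_nf
      _ ≤ _ := by linarith
  nlinarith [mul_le_mul_of_nonneg_right a6 (show (0 : ℤ) ≤ q by omega)]

lemma deg_prod {K τ A : Type} [Field K] (P : A → (MvPolynomial τ K)[X]) (d : ℕ)
    (h : ∀ a j, ((P a).coeff j).totalDegree ≤ d) (s : Finset A) (j : ℕ) :
    ((∏ a ∈ s, P a).coeff j).totalDegree ≤ s.card * d := by
  induction s using Finset.induction_on generalizing j with
  | empty =>
    rw [prod_empty, coeff_one]
    split_ifs <;> simp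
  | insert a s ha ih =>
    rw [prod_insert ha, coeff_mul, card_insert_of_notMem ha]
    refine (MvPolynomial.totalDegree_finsetSum _ _).trans (Finset.sup_le fun x _ => ?_)
    refine (MvPolynomial.totalDegree_mul _ _).trans ?_
    have := h a x.1
    have := ih x.2
    rw [add_mul]
    omega

lemma ev_line {K τ : Type} [Field K] (t0 t1 : τ → K) (s : K) (P : (MvPolynomial τ K)[X]) :
    (P.map (lineMap t0 t1)).map (evalRingHom s) =
      P.map (MvPolynomial.eval fun i => t0 i + s * (t1 i - t0 i)) := by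
  rw [Polynomial.map_map]
  congr 1
  refine MvPolynomial.ringHom_ext (fun c => ?_) fun i => ?_
  · simp [lineMap]
  · simp [lineMap, mul_comm]

lemma line_coeff {K τ : Type} [Field K] (k : Subfield K) {t0 t1 : τ → K} (h0 : ∀ i, t0 i ∈ k)
    (h1 : ∀ i, t1 i ∈ k) {g : MvPolynomial τ K} (hg : ∀ m, g.coeff m ∈ k) (j : ℕ) :
    (lineMap t0 t1 g).coeff j ∈ k := by
  have : lineMap t0 t1 g ∈ Polynomial.liftsRing k.subtype := by
    rw [g.as_sum, map_sum]
    refine Subring.sum_mem _ fun m _ => ?_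
    have hC : ∀ c ∈ k, (C c : K[X]) ∈ Polynomial.liftsRing k.subtype := fun c hc =>
      ⟨C ⟨c, hc⟩, by simp⟩
    have hX : (X : K[X]) ∈ Polynomial.liftsRing k.subtype := ⟨X, by simp⟩
    simp only [lineMap, AlgHom.toRingHom_eq_coe, RingHom.coe_coe, MvPolynomial.aeval_monomial]
    exact Subring.mul_mem _ (hC _ (hg m)) (Subring.prod_mem _ fun i _ => Subring.pow_mem _
      (Subring.add_mem _ (hC _ (h0 i)) (Subring.mul_mem _ (hC _ (k.sub_mem (h1 i) (h0 i))) hX)) _)
  obtain ⟨p, hp⟩ := this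
  rw [← hp, coe_mapRingHom, coeff_map]
  exact (p.coeff j).2

end LWM

open LWM in
theorem stLWM74 (hW : St_LWG) : St_LWM := by
  intro nA n d r
  choose B1 hB1 using hW
  choose B2 hB2 using Cheb.split_countM.{0, 0, 0}
  set d' := nA * d with hd'
  set B := ∑ D ∈ range (nA * n + 1), B2 D d' with hB
  set C1 := ∑ D ∈ range (nA * n + 1), B1 D d' + 2 * (nA * n) * d' with hC1
  set N0 := n.factorial ^ nA with hN0
  refine ⟨2 * (1 + N0 + B + N0 * C1 + C1) + N0 * C1 + (N0 + 1) * (B + C1 + 2), ?_⟩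
  intro K τ A _ _ _ _ k _ q hk hr hA P hm hn hd hco hs hG
  have := Fintype.ofFinite k
  set N := ∏ a, (P a).natDegree.factorial with hN
  have hNN : N ≤ N0 := by
    rw [hN0, ← hA, ← card_univ]
    exact prod_le_pow_card _ _ _ fun a _ => Nat.factorial_le (hn a).2
  have hV : Fintype.card (τ → k) = (q ^ 2) ^ r := by
    rw [Fintype.card_fun, ← Nat.card_eq_fintype_card, hk, hr]
  have hV' : ((q : ℤ) ^ 2) ^ r = Fintype.card (τ → k) := by rw [hV]; push_cast; rfl
  rw [hV', Nat.card_eq_fintype_card, Fintype.card_subtype]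
  set G := (univ.filter fun b : τ → k => ∀ a,
    RootsIn k (P a).natDegree ((P a).map (MvPolynomial.eval fun j => (b j : K)))).card with hGd
  by_cases hq : q < B + C1 + 2
  · have h1 : G ≤ Fintype.card (τ → k) := card_le_univ _
    have h2 : |(N : ℤ) * G - Fintype.card (τ → k)| ≤ (N0 + 1) * Fintype.card (τ → k) := by
      zify at h1 hNN
      have := mul_le_mul hNN h1 (by positivity) (by positivity)
      have : (0 : ℤ) ≤ N * G := by positivity
      have : (0 : ℤ) ≤ N0 * Fintype.card (τ → k) := by positivity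
      rw [abs_le]
      constructor <;> linarith
    have h3 := mul_le_mul h2 (show (q : ℤ) ≤ B + C1 + 2 by exact_mod_cast hq.le) (by positivity)
      (by positivity)
    have : (0 : ℤ) ≤ (2 * (1 + N0 + B + N0 * C1 + C1) + N0 * C1) * Fintype.card (τ → k) := by
      positivity
    push_cast
    linarith
  push Not at hq
  set f := ∏ a, P a with hf
  have hfm : f.Monic := monic_prod_of_monic _ _ fun a _ => hm a
  have hfd : f.natDegree ∈ range (nA * n + 1) := by
    rw [mem_range, Nat.lt_succ_iff, hf, natDegree_prod_of_monic _ _ fun a _ => hm a, ← hA,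
      ← card_univ, ← smul_eq_mul]
    exact sum_le_card_nsmul _ _ _ fun a _ => (hn a).2
  have hfc : ∀ j, (f.coeff j).totalDegree ≤ d' := fun j => by
    have := deg_prod P d hd univ j
    rwa [card_univ, hA] at this
  have hgen : gen f = ∏ a, gen (P a) := Polynomial.map_prod _ _ _
  have hgd : ∀ a, (gen (P a)).natDegree = (P a).natDegree := fun a => (hm a).natDegree_map _
  have hfs : (gen f).Separable := by
    rw [hgen]
    refine sepM _ (fun a => (hm a).map _) (fun a => hgd a ▸ (hn a).1) hs ?_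
    rw [← hgen, hG]
    exact prod_congr rfl fun a _ => by rw [hgd]
  obtain ⟨Δ, hΔ0, hΔ1, hΔ2⟩ := stDISC K τ _ d' f hfm rfl hfc hfs
  have hΔ3 : Δ.totalDegree ≤ C1 := by
    have := Nat.mul_le_mul_right d' (Nat.mul_le_mul_left 2 (Nat.lt_succ_iff.1 (mem_range.1 hfd)))
    omega
  have sz : ∀ g : MvPolynomial τ K, g ≠ 0 → g.totalDegree ≤ C1 →
      (univ.filter fun b : τ → k => MvPolynomial.eval (fun j => (b j : K)) g = 0).card * q ^ 2 ≤
        C1 * Fintype.card (τ → k) := fun g h0 h1 => by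
    have := stSZ K τ k g h0
    rw [Nat.card_eq_fintype_card, Fintype.card_subtype, hk, hr, ← hV] at this
    exact this.trans (Nat.mul_le_mul_right _ h1)
  obtain ⟨t0, ht0⟩ : ∃ t0 : τ → k, MvPolynomial.eval (fun j => (t0 j : K)) Δ ≠ 0 := by
    by_contra h
    push Not at h
    have h1 := sz Δ hΔ0 hΔ3
    rw [filter_true_of_mem fun b _ => h b, card_univ, mul_comm] at h1
    have := Nat.le_of_mul_le_mul_right h1 Fintype.card_pos
    nlinarith
  obtain ⟨Ψ, hΨ0, hΨ1, hΨ2⟩ := hB1 _ d' K τ f hfm rfl hfc _ (hΔ2 _ ht0)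
  have hΨ3 : Ψ.totalDegree ≤ C1 := by
    have := single_le_sum (f := fun D => B1 D d') (fun _ _ => Nat.zero_le _) hfd
    omega
  have hBB : B2 f.natDegree d' ≤ B :=
    single_le_sum (f := fun D => B2 D d') (fun _ _ => Nat.zero_le _) hfd
  obtain ⟨p, hp⟩ := CharP.exists K
  have : CharP k p := (RingHom.charP_iff_charP k.subtype p).2 hp
  obtain ⟨e, hpp, he⟩ := FiniteField.card k p
  have : Fact p.Prime := ⟨hpp⟩
  obtain ⟨m, -, rfl⟩ := (Nat.dvd_prime_pow hpp).1
    (show q ∣ p ^ (e : ℕ) by rw [← he, ← Nat.card_eq_fintype_card, hk]; exact dvd_pow_self _ two_ne_zero)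
  have hfix : ∀ c : K, c ^ (p ^ m) ^ 2 = c ↔ c ∈ k := fun c => by
    rw [← hk]
    exact ⟨Wrap.mem_of_pow k, Wrap.pow_of_mem k⟩
  obtain ⟨S, hS⟩ : ∃ S : (τ → k) → Prop, ∀ b, S b ↔
      (f.map (MvPolynomial.eval fun j => (b j : K))).Separable ∧
        ∀ z, (f.map (MvPolynomial.eval fun j => (b j : K))).IsRoot z → z ∈ k :=
    ⟨_, fun _ => Iff.rfl⟩
  obtain ⟨e', he1, he2⟩ := dc (k := k) S t0
  rw [← Nat.card_eq_fintype_card (α := k), hk] at he2
  have hfb : ∀ b : τ → K, f.map (MvPolynomial.eval b) = ∏ a, (P a).map (MvPolynomial.eval b) :=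
    fun b => Polynomial.map_prod _ _ _
  refine (num _ (fun t1 : τ → k => MvPolynomial.eval (fun j => (t1 j : K)) Ψ = 0) N N0 B C1
    (p ^ m) _ e' G (univ.filter fun b : τ → k =>
      MvPolynomial.eval (fun j => (b j : K)) Δ = 0).card (by omega) hNN he1 he2 (fun t1 => ?_)
    (fun t1 h1 => ?_) (sz Ψ hΨ0 hΨ3) ?_ ?_ (sz Δ hΔ0 hΔ3)).trans ?_
  · rw [← hk, Nat.card_eq_fintype_card]
    exact card_le_univ _
  · obtain ⟨h2, h3⟩ := hΨ2 _ h1
    set φ := lineMap (fun j => (t0 j : K)) (fun j => (t1 j : K)) with hφ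
    have h4 : f.map φ = ∏ a, (P a).map φ := Polynomial.map_prod _ _ _
    have h5 : ∀ a, ((P a).map φ).natDegree = (P a).natDegree := fun a => (hm a).natDegree_map _
    rw [h4] at h2 h3
    rw [hG] at h3
    have h6 := hB2 f.natDegree d' K p m (RatFunc K)
      ((∏ a, (P a).map φ).map (algebraMap K[X] (RatFunc K))).SplittingField A
      (fun a => (P a).map φ) (fun a => (hm a).map _) (by rw [← h4, hfm.natDegree_map])
      (fun i => by
        rw [← h4, coeff_map]
        refine (MvPolynomial.aeval_natDegree_le _ (hfc i) _ (n := 1) fun j => ?_).trans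
          (by omega)
        compute_degree)
      (fun a i j => by
        rw [hfix, coeff_map]
        exact line_coeff k (fun j => (t0 j).2) (fun j => (t1 j).2) (hco a i) j) h2
      (by simpa only [h5] using h3) (by omega)
    simp only [h5] at h6
    have h7 : (Cheb.Split ((p ^ m) ^ 2) (∏ a, (P a).map φ)).ncard =
        (univ.filter fun s : k => S (t0 + s • (t1 - t0))).card := by
      rw [← card_image_of_injective _ Subtype.val_injective, ← Set.ncard_coe_finset, ← h4]
      congr 1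
      ext s
      simp only [Cheb.Split, Set.mem_ofPred_eq, hfix, coe_image, coe_filter, mem_univ, true_and,
        Set.mem_image]
      have hl : ∀ s : k, (fun j => ((t0 + s • (t1 - t0)) j : K)) =
          fun j => (t0 j : K) + s * (t1 j - t0 j) := fun s => funext fun j => by simp
      rw [hφ, ev_line]
      constructor
      · rintro ⟨a1, a2⟩
        refine ⟨⟨s, a1⟩, ?_, rfl⟩
        rw [hS, hl]
        exact a2
      · rintro ⟨s, a2, rfl⟩
        rw [hS, hl] at a2
        exact ⟨s.2, a2⟩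
    rw [h7, ← hN] at h6
    have := Nat.mul_le_mul_right (p ^ m) hBB
    constructor <;> omega
  · refine card_le_card fun b hb => mem_filter.2 ⟨mem_univ _, fun a => ?_⟩
    obtain ⟨a1, a2⟩ := (hS b).1 (mem_filter.1 hb).2
    have hd : (P a).map (MvPolynomial.eval fun j => (b j : K)) ∣ _ :=
      hfb _ ▸ dvd_prod_of_mem _ (mem_univ a)
    refine ⟨((P a).map (MvPolynomial.eval fun j => (b j : K))).roots.toFinset, ?_, fun z hz => ?_⟩
    · rw [Multiset.toFinset_card_of_nodup (nodup_roots (a1.of_dvd hd)),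
        ← (IsAlgClosed.splits _).natDegree_eq_card_roots, (hm a).natDegree_map]
    · have := isRoot_of_mem_roots (Multiset.mem_toFinset.1 hz)
      exact ⟨a2 z (this.dvd hd), this⟩
  · refine (card_le_card fun b hb => ?_).trans (card_union_le _ _)
    rw [mem_union, mem_filter, mem_filter]
    by_cases h0 : MvPolynomial.eval (fun j => (b j : K)) Δ = 0
    · exact Or.inr ⟨mem_univ _, h0⟩
    refine Or.inl ⟨mem_univ _, (hS b).2 ⟨hΔ2 _ h0, fun z hz => ?_⟩⟩
    rw [hfb, IsRoot, eval_prod, prod_eq_zero_iff] at hz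
    obtain ⟨a, -, hz⟩ := hz
    obtain ⟨s, s1, s2⟩ := (mem_filter.1 hb).2 a
    have hm1 := (hm a).map (MvPolynomial.eval fun j => (b j : K))
    by_contra hzk
    have := card_le_degree_of_subset_roots (p := (P a).map (MvPolynomial.eval fun j => (b j : K)))
      (Z := insert z s) fun x hx => by
        rw [mem_roots hm1.ne_zero]
        rcases mem_insert.1 hx with rfl | hx
        exacts [hz, (s2 x hx).2]
    rw [card_insert_of_notMem fun h => hzk (s2 z h).1, s1, (hm a).natDegree_map] at this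
    omega
  · exact mul_le_mul_of_nonneg_right (Int.ofNat_le.2 (Nat.le_add_right _ _)) (by positivity)

end Pool.Agent.Lib.PK1.Cnt
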