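import Pool.Agent.Lib.PK1.Blue
import Pool.Agent.Lib.PK1.Basic
import Pool.Agent.Lib.PK1.Gen79

/-! The number of split members through at most two rational points. -/

open MvPolynomial Pool.Agent.Lib.MP_e06174_ag Finset
open scoped LinearAlgebra.Projectivization Classical

set_option linter.unusedSectionVars false
set_option linter.unusedVariables false

noncomputable section

namespace Pool.Agent.Lib.PK1

namespace SPLIT

/-- Averaging over pencils. -/
theorem avg {k V : Type} [Field k] [Fintype k] [AddCommGroup V] [Module k V] [Fintype V]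
    (S : V → Prop) (G : V × V → Prop) (n : ℕ) (hn : 1 ≤ n) (A B : ℚ) (hA : 0 ≤ A)
    (hG : ∀ w, G w → |(n * #{a : k | S (w.1 + a • w.2)} : ℚ) - Fintype.card k| ≤ A)
    (hB : (Fintype.card k * #{w | ¬G w} : ℚ) ≤ B * Fintype.card V ^ 2) :
    Fintype.card k * |(n * #{w | S w} : ℚ) - Fintype.card V| ≤ (A + n * B) * Fintype.card V := by
  have hV : (0 : ℚ) < Fintype.card V := by exact_mod_cast Fintype.card_pos
  have h1 : ∑ w : V × V, (#{a : k | S (w.1 + a • w.2)} : ℚ) =
      Fintype.card k * Fintype.card V * #{w | S w} := by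
    have h2 : ∀ (a : k) (w₂ : V), ∑ w₁ : V, (if S (w₁ + a • w₂) then (1 : ℚ) else 0) =
        #{w | S w} := fun a w₂ => by
      rw [Finset.natCast_card_filter]
      exact Fintype.sum_equiv (Equiv.addRight (a • w₂)) _ _ fun _ => rfl
    simp only [Finset.natCast_card_filter (p := fun a : k => S _)]
    rw [Finset.sum_comm]
    simp only [Fintype.sum_prod_type_right, h2, Finset.sum_const, card_univ, nsmul_eq_mul]
    ring
  have h3 : ∀ w : V × V, |(n * #{a : k | S (w.1 + a • w.2)} : ℚ) - Fintype.card k| ≤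
      A + if ¬G w then (n * Fintype.card k : ℚ) else 0 := fun w => by
    split_ifs with h
    · simpa using hG w h
    · have h4 : (#{a : k | S (w.1 + a • w.2)} : ℚ) ≤ Fintype.card k := by
        exact_mod_cast card_le_univ _
      have h5 : (1 : ℚ) ≤ n := by exact_mod_cast hn
      have h6 : (0 : ℚ) ≤ #{a : k | S (w.1 + a • w.2)} := by positivity
      have h7 : (0 : ℚ) ≤ Fintype.card k := by positivity
      rw [abs_le]
      constructor <;> nlinarith
  have h4 : |∑ w : V × V, ((n * #{a : k | S (w.1 + a • w.2)} : ℚ) - Fintype.card k)| ≤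
      A * Fintype.card V ^ 2 + n * (Fintype.card k * #{w | ¬G w}) := by
    refine (Finset.abs_sum_le_sum_abs _ _).trans ((Finset.sum_le_sum fun w _ => h3 w).trans ?_)
    rw [Finset.sum_add_distrib, ← Finset.sum_filter]
    simp only [Finset.sum_const, card_univ, nsmul_eq_mul, Fintype.card_prod, Nat.cast_mul]
    exact le_of_eq (by ring)
  rw [Finset.sum_sub_distrib, ← Finset.mul_sum, h1] at h4
  simp only [Finset.sum_const, card_univ, nsmul_eq_mul, Fintype.card_prod, Nat.cast_mul] at h4
  have h5 : (n * (Fintype.card k * Fintype.card V * #{w | S w}) -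
      Fintype.card V * Fintype.card V * Fintype.card k : ℚ) =
      Fintype.card V * (Fintype.card k * ((n * #{w | S w} : ℚ) - Fintype.card V)) := by ring
  rw [h5, abs_mul, abs_mul, abs_of_pos hV, abs_of_nonneg (Nat.cast_nonneg _)] at h4
  refine le_of_mul_le_mul_left (h4.trans ?_) hV
  have h6 : (0 : ℚ) ≤ n := by positivity
  nlinarith [mul_le_mul_of_nonneg_left hB h6]

section curve

variable {K F ι : Type} [Field K] [IsAlgClosed K] [Field F] [Algebra K F] [Fintype ι] [Nonempty ι]
  {η : ι → F}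

/-- A form has at most `d * h` zeros on a curve of degree `h`. -/
theorem zeros_le (hC : St_CM1) (hη : Crv K η) {h : ℕ} (hh : Deg K η h) {d : ℕ}
    {r : MvPolynomial ι K} (hr : r.IsHomogeneous d) (h0 : aeval η r ≠ 0) :
    {x : Pt K ι | On η x ∧ eval x.rep r = 0}.encard ≤ (d * h : ℕ) := by
  have hZ := (hC.van K F ι η hη d r hr h0).1
  have hn : ∀ P : Place K F, nrm P η d r ≠ 0 := fun P => (nrm_ne_zero hη.ne).2 h0
  have hge : ∀ P : Place K F, 0 ≤ P.ord (nrm P η d r) := fun P => (nrm_ge hη.ne hr).le (hn P)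
  have hfin : (Function.support fun P : Place K F => P.ord (nrm P η d r)).Finite := by
    refine (hZ.biUnion fun x _ => hC.fib K F ι η hη x).subset fun P hP => ?_
    obtain ⟨h1, h2, -⟩ := hC.ctr K F ι η hη P
    refine Set.mem_biUnion (x := ctr η P) ⟨h2, (h1 d r hr).1 (Place.ge_of_le ?_)⟩ rfl
    have := hge P
    have h3 : P.ord (nrm P η d r) ≠ 0 := hP
    omega
  have h1 := hh d r hr h0
  rw [finsum_eq_sum _ hfin] at h1
  have h2 : (hfin.toFinset.card : ℤ) ≤ (d * h : ℕ) := by
    rw [← h1, card_eq_sum_ones]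
    push_cast
    refine Finset.sum_le_sum fun P hP => ?_
    have := hge P
    have h3 : P.ord (nrm P η d r) ≠ 0 := by simpa using hP
    omega
  have h3 : {x : Pt K ι | On η x ∧ eval x.rep r = 0} ⊆
      ctr η '' (hfin.toFinset : Set (Place K F)) := fun x hx => by
    obtain ⟨P, rfl⟩ := hC.surj K F ι η hη x hx.1
    refine ⟨P, ?_, rfl⟩
    have := (((hC.ctr K F ι η hη P).1 d r hr).2 hx.2).le (hn P)
    simp only [Set.Finite.coe_toFinset, Function.mem_support]
    omega
  refine (Set.encard_le_encard h3).trans ((Set.encard_image_le _ _).trans ?_)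
  rw [Set.encard_coe_eq_coe_finsetCard]
  exact_mod_cast h2

/-- A base point free family of nonzero linear forms. -/
theorem exists_pencil (hC : St_CM1) (hη : Crv K η) : ∃ i j : ι, η i ≠ 0 ∧
    ∀ a : K, aeval η (X j - a • X i : MvPolynomial ι K) ≠ 0 := by
  obtain ⟨i, hi⟩ := hη.ne
  by_contra h
  push Not at h
  choose a ha using fun j => h i j hi
  have h1 := (hC.van K F ι η hη 1 (X i) (isHomogeneous_X K i) (by simpa using hi)).2
  refine h1 (Set.Subsingleton.finite fun x hx x' hx' => pt_eq_of_lin fun j => ?_)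
  have h2 : ∀ x : Pt K ι, On η x → ∀ j, x.rep j = a j * x.rep i := fun x hx j => by
    have := hx 1 _ ((isHomogeneous_X K j).sub (hom_smul (isHomogeneous_X K i) (a j))) (ha j)
    simpa [sub_eq_zero] using this
  rw [eval_lin, h2 x hx j, h2 x hx (ix x), h2 x' hx' j, h2 x' hx' (ix x)]
  ring

/-- The number of rational points. -/
theorem rat_le (hC : St_CM1) (hη : Crv K η) {h : ℕ} (hh : Deg K η h) (k : Subfield K)
    [Fintype k] :
    {x : Pt K ι | On η x ∧ IsRat k x}.encard ≤ (2 * h * Fintype.card k : ℕ) := by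
  obtain ⟨i, j, hi, hj⟩ := exists_pencil hC hη
  have h1 := zeros_le hC hη hh (isHomogeneous_X K i) (by simpa using hi)
  have h2 := fun a : K => zeros_le hC hη hh
    ((isHomogeneous_X K j).sub (hom_smul (isHomogeneous_X K i) a)) (hj a)
  have h3 : {x : Pt K ι | On η x ∧ IsRat k x} ⊆
      {x : Pt K ι | On η x ∧ eval x.rep (X i : MvPolynomial ι K) = 0} ∪ ⋃ a ∈ (univ : Finset k),
        {x : Pt K ι | On η x ∧ eval x.rep (X j - (a : K) • X i : MvPolynomial ι K) = 0} :=
    fun x hx => by
      by_cases h0 : x.rep i = 0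
      · exact Or.inl ⟨hx.1, by simpa using h0⟩
      · refine Or.inr (Set.mem_biUnion (x := ⟨_, hx.2 j i⟩) (by simp) ⟨hx.1, ?_⟩)
        simp [h0]
  refine (Set.encard_le_encard h3).trans ((Set.encard_union_le _ _).trans ?_)
  refine (add_le_add h1 ((Finset.set_encard_biUnion_le _ _).trans
    (Finset.sum_le_sum fun (a : k) _ => h2 a))).trans ?_
  have h4 : 1 ≤ Fintype.card k := Fintype.card_pos
  simp only [Finset.sum_const, card_univ, nsmul_eq_mul]
  norm_cast
  nlinarith

end curve

section forms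

variable {K ι k Y : Type} [Field K] [Fintype ι] [Field k] [Fintype Y] {φ : k →+* K}
  {x : Y → Pt K ι} {c : Y → ι → k} {m : ℕ}

theorem eval_div_eq_zero (x : Pt K ι) {d : ℕ} {r : MvPolynomial ι K} (hr : r.IsHomogeneous d) :
    eval (fun i => x.rep i / x.rep (ix x)) r = 0 ↔ eval x.rep r = 0 := by
  have h : eval (fun i => x.rep i / x.rep (ix x)) r = eval x.rep r / x.rep (ix x) ^ d :=
    aeval_div hr _ _
  rw [h]
  simp [ix_ne]

/-- Evaluation of the forms at rational points. -/
def ev (m : ℕ) (c : Y → ι → k) : homogeneousSubmodule ι k m →ₗ[k] (Y → k) :=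
  LinearMap.pi fun a => (aeval (c a)).toLinearMap ∘ₗ (homogeneousSubmodule ι k m).subtype

theorem ev_apply (w : homogeneousSubmodule ι k m) (a : Y) : ev m c w a = eval (c a) w.1 := rfl

theorem map_smul_k (a : k) (w : MvPolynomial ι k) : map φ (a • w) = φ a • map φ w := by
  simp [smul_eq_C_mul]

variable (hc : ∀ a i, φ (c a i) = (x a).rep i / (x a).rep (ix (x a)))

include hc

theorem eval_nr (a : Y) (r : MvPolynomial ι k) :
    φ (eval (c a) r) = eval (fun i => (x a).rep i / (x a).rep (ix (x a))) (map φ r) := by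
  rw [eval_map, eval₂_comp φ (c a) r]
  exact congrArg (eval₂ φ · r) (funext (hc a))

theorem mem_ker (w : homogeneousSubmodule ι k m) :
    w ∈ LinearMap.ker (ev m c) ↔ ∀ a, eval (x a).rep (map φ w.1) = 0 := by
  rw [LinearMap.mem_ker, funext_iff]
  refine forall_congr' fun a => ?_
  rw [← eval_div_eq_zero (x a) (w.2.map _), ← eval_nr hc, ev_apply]
  simp

theorem exists_sep {a b : Y} (h : x b ≠ x a) :
    ∃ r : MvPolynomial ι k, r.IsHomogeneous 1 ∧ eval (c b) r = 0 ∧ eval (c a) r ≠ 0 := by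
  by_contra h1
  push Not at h1
  refine h (pt_eq_of_lin fun j => ?_)
  have h2 := congrArg φ (h1 (lin (c b) (ix (x b)) j) (lin_hom _ _ _) (by rw [eval_lin]; ring))
  rw [eval_lin] at h2 ⊢
  have h3 := ix_ne (x a)
  have h4 := ix_ne (x b)
  simp only [map_sub, map_mul, map_zero, hc] at h2
  field_simp at h2
  linear_combination h2

variable (hx : Function.Injective x) (hm : Fintype.card Y ≤ m)

include hx hm

theorem exists_dual (a : Y) : ∃ e, ev m c e = Pi.single a 1 := by
  choose r h1 h2 h3 using fun b : {b : Y // b ≠ a} => exists_sep hc fun h => b.2 (hx h)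
  have h4 : Fintype.card {b : Y // b ≠ a} ≤ m := (Fintype.card_subtype_le _).trans hm
  have h5 : (X (ix (x a)) ^ (m - Fintype.card {b : Y // b ≠ a}) * ∏ b, r b).IsHomogeneous m := by
    have := (hom_X_pow (K := k) (ix (x a)) (m - Fintype.card {b : Y // b ≠ a})).mul
      (IsHomogeneous.prod univ r (fun _ => 1) fun b _ => h1 b)
    rwa [Finset.sum_const, card_univ, smul_eq_mul, mul_one, Nat.sub_add_cancel h4] at this
  have h6 : ev m c ⟨_, h5⟩ a ≠ 0 := by
    rw [ev_apply]
    simp only [map_mul, map_pow, map_prod, eval_X]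
    refine mul_ne_zero (pow_ne_zero _ fun h => ?_) (prod_ne_zero_iff.2 fun b _ => h3 b)
    simpa [hc, ix_ne] using congrArg φ h
  refine ⟨(ev m c ⟨_, h5⟩ a)⁻¹ • ⟨_, h5⟩, funext fun b => ?_⟩
  rw [map_smul, Pi.smul_apply, smul_eq_mul]
  by_cases h : b = a
  · rw [h, inv_mul_cancel₀ h6, Pi.single_eq_same]
  · rw [Pi.single_eq_of_ne h, ev_apply _ b]
    simp only [map_mul, map_prod]
    exact mul_eq_zero_of_right _ (mul_eq_zero_of_right _
      (prod_eq_zero (mem_univ (⟨b, h⟩ : {b : Y // b ≠ a})) (h2 _)))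

theorem card_ker : Nat.card (homogeneousSubmodule ι k m) =
    Nat.card (LinearMap.ker (ev m c)) * Nat.card k ^ Fintype.card Y := by
  have h : Function.Surjective (ev m c) := fun f => by
    choose e he using exists_dual hc hx hm
    refine ⟨∑ a, f a • e a, ?_⟩
    simp only [map_sum, map_smul, he]
    exact (pi_eq_sum_univ' f).symm
  rw [Submodule.card_eq_card_quotient_mul_card (LinearMap.ker (ev m c)),
    Nat.card_congr ((ev m c).quotKerEquivOfSurjective h).toEquiv, Nat.card_fun,
    Nat.card_eq_fintype_card (α := Y)]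

theorem mem_span (N : Submodule K (MvPolynomial ι K))
    (hN : ∀ w ∈ LinearMap.ker (ev m c), map φ w.1 ∈ N) {w : MvPolynomial ι K}
    (hw : w.IsHomogeneous m) (h0 : ∀ a, eval (x a).rep w = 0) : w ∈ N := by
  choose e he using exists_dual hc hx hm
  let T : MvPolynomial ι K →ₗ[K] MvPolynomial ι K := LinearMap.id - ∑ a : Y,
    (aeval fun i => (x a).rep i / (x a).rep (ix (x a))).toLinearMap.smulRight (map φ (e a).1)
  have hT : ∀ w, T w = w - ∑ a : Y,
      eval (fun i => (x a).rep i / (x a).rep (ix (x a))) w • map φ (e a).1 := fun w => by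
    simp [T, aeval_eq_eval]
  have h1 : T w = w := by
    rw [hT, Finset.sum_eq_zero fun a _ => by
      rw [(eval_div_eq_zero (x a) hw).2 (h0 a), zero_smul], sub_zero]
  rw [← h1, w.as_sum, map_sum]
  refine N.sum_mem fun s hs => ?_
  have h2 : (monomial s (1 : k)).IsHomogeneous m := isHomogeneous_monomial _ (by
    rw [Finsupp.degree_eq_weight_one]
    exact hw (mem_support_iff.1 hs))
  have h3 : monomial s (coeff s w) = coeff s w • map φ (monomial s 1) := by
    simp [smul_monomial]
  rw [h3, map_smul]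
  refine N.smul_mem _ ?_
  have h4 := hN (⟨_, h2⟩ - ∑ a, ev m c ⟨_, h2⟩ a • e a) (by
    simp only [LinearMap.mem_ker, map_sub, map_sum, map_smul, he]
    exact sub_eq_zero.2 (pi_eq_sum_univ' _))
  rw [hT]
  simpa only [AddSubgroupClass.coe_sub, AddSubmonoidClass.coe_finsetSum, SetLike.val_smul, map_sub,
    map_sum, map_smul_k, ev_apply, eval_nr hc] using h4

theorem count [Fintype k] (S : MvPolynomial ι K → Prop)
    (G : MvPolynomial ι K → MvPolynomial ι K → Prop) (n : ℕ) (hn : 1 ≤ n) (A : ℚ) (hA : 0 ≤ A)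
    (B : ℕ) (hG : ∀ w₁ w₂ : MvPolynomial ι k, w₁.IsHomogeneous m → w₂.IsHomogeneous m →
      (∀ a, eval (x a).rep (map φ w₁) = 0 ∧ eval (x a).rep (map φ w₂) = 0) →
      G (map φ w₁) (map φ w₂) →
      |(n * #{a : k | S (map φ w₁ + φ a • map φ w₂)} : ℚ) - Fintype.card k| ≤ A)
    (hB : ∀ (J : Type) [Fintype J] (u : J → MvPolynomial ι K), (∀ j, (u j).IsHomogeneous m) →
      (∀ w : MvPolynomial ι K, w.IsHomogeneous m → (∀ a, eval (x a).rep w = 0) →
        w ∈ Submodule.span K (Set.range u)) →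
      ∃ h : MvPolynomial (Fin 2 × J) K, h ≠ 0 ∧ h.totalDegree ≤ B ∧ ∀ τ : Fin 2 × J → K,
        eval τ h ≠ 0 → G (∑ j, τ (0, j) • u j) (∑ j, τ (1, j) • u j)) :
    Fintype.card k * |(n * Fintype.card k ^ Fintype.card Y *
      Nat.card {w : homogeneousSubmodule ι k m // (∀ a, eval (x a).rep (map φ w.1) = 0) ∧
        S (map φ w.1)} : ℚ) - Nat.card (homogeneousSubmodule ι k m)| ≤
      (A + n * B) * Nat.card (homogeneousSubmodule ι k m) := by
  have : Module.Finite k (homogeneousSubmodule ι k m) :=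
    Module.Finite.iff_fg.2 (homogeneousSubmodule_fg ι k m)
  have : Finite (LinearMap.ker (ev m c)) := Module.finite_of_finite k
  have := Fintype.ofFinite (LinearMap.ker (ev m c))
  have : Module.Free k (LinearMap.ker (ev m c)) :=
    Module.Free.of_divisionRing k (LinearMap.ker (ev m c))
  let b := Module.finBasis k (LinearMap.ker (ev m c))
  have hb : ∀ w : LinearMap.ker (ev m c),
      map φ w.1.1 = ∑ j, φ (b.repr w j) • map φ (b j).1.1 := fun w => by
    conv_lhs => rw [← b.sum_repr w]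
    simp only [AddSubmonoidClass.coe_finsetSum, SetLike.val_smul, map_sum, map_smul_k]
  obtain ⟨h, h0, h1, h2⟩ := hB _ (fun j => map φ (b j).1.1) (fun j => (b j).1.2.map _)
    fun w hw hw' => mem_span hc hx hm _ (fun w hw => by
      rw [hb ⟨w, hw⟩]
      exact Submodule.sum_mem _ fun j _ =>
        Submodule.smul_mem _ _ (Submodule.subset_span ⟨j, rfl⟩)) hw hw'
  have h3 := sz h0 (univ.map ⟨φ, φ.injective⟩)
  have h4 : #{w : LinearMap.ker (ev m c) × LinearMap.ker (ev m c) |
      ¬G (map φ w.1.1.1) (map φ w.2.1.1)} ≤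
      #{τ ∈ Fintype.piFinset fun _ => univ.map ⟨φ, φ.injective⟩ | eval τ h = 0} := by
    refine card_le_card_of_injOn (fun w a => φ (b.repr (![w.1, w.2] a.1) a.2)) (fun w hw => ?_)
      fun w _ w' _ e => ?_
    · simp only [coe_filter, mem_univ, true_and, Set.mem_ofPred_eq] at hw
      refine mem_coe.2 (mem_filter.2 ⟨by simp, ?_⟩)
      by_contra h5
      refine hw ?_
      rw [hb w.1, hb w.2]
      exact h2 _ h5
    · exact Prod.ext (b.ext_elem fun j => φ.injective (congrFun e (0, j)))
        (b.ext_elem fun j => φ.injective (congrFun e (1, j)))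
  have h5 := avg (k := k) (fun w : LinearMap.ker (ev m c) => S (map φ w.1.1))
    (fun w => G (map φ w.1.1.1) (map φ w.2.1.1)) n hn A B hA (fun w hw => by
      simpa only [Submodule.coe_add, SetLike.val_smul, map_add, map_smul_k] using
        hG _ _ w.1.1.2 w.2.1.2
          (fun a => ⟨(mem_ker hc _).1 w.1.2 a, (mem_ker hc _).1 w.2.2 a⟩) hw) (by
      rw [card_map, card_univ, Fintype.card_prod, Fintype.card_fin, Fintype.card_fin,
        pow_mul'] at h3
      rw [Module.card_eq_pow_finrank (K := k) (V := LinearMap.ker (ev m c))]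
      norm_cast at h3 ⊢
      refine (Nat.mul_le_mul_left _ h4).trans (le_trans ?_ (Nat.mul_le_mul_right _ h1))
      refine le_trans (le_of_eq ?_) h3
      congr!)
  have h6 : Nat.card {w : homogeneousSubmodule ι k m // (∀ a, eval (x a).rep (map φ w.1) = 0) ∧
      S (map φ w.1)} = #{w : LinearMap.ker (ev m c) | S (map φ w.1.1)} := by
    rw [← Fintype.card_subtype, ← Nat.card_eq_fintype_card]
    exact Nat.card_congr ((Equiv.subtypeEquivRight fun w =>
      and_congr_left' (mem_ker hc w).symm).trans (Equiv.subtypeSubtypeEquivSubtypeInter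
        (· ∈ LinearMap.ker (ev m c)) fun w : homogeneousSubmodule ι k m => S (map φ w.1)).symm)
  rw [h6, card_ker hc hx hm, Nat.card_eq_fintype_card, Nat.card_eq_fintype_card]
  push_cast
  have h7 : (0 : ℚ) ≤ Fintype.card k ^ Fintype.card Y := by positivity
  rw [mul_right_comm, ← sub_mul, abs_mul, abs_of_nonneg h7, ← mul_assoc, ← mul_assoc]
  exact mul_le_mul_of_nonneg_right h5 h7

end forms

section frob

variable {K ι : Type} [Field K] [Fintype ι] {k : Subfield K}

theorem eval_pow (p n : ℕ) [Fact p.Prime] [CharP K p] (hk : Nat.card k = p ^ n)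
    {r : MvPolynomial ι K} (hr : Coef k r) (z : ι → K) :
    eval (fun i => z i ^ p ^ n) r = eval z r ^ p ^ n := by
  have : Finite k := Nat.finite_of_card_ne_zero (hk ▸ pow_ne_zero _ (Fact.out : p.Prime).ne_zero)
  have := Fintype.ofFinite k
  have h1 : map (iterateFrobenius K p n) r = r := MvPolynomial.ext _ _ fun s => by
    have h2 := congrArg Subtype.val (FiniteField.pow_card (⟨_, hr s⟩ : k))
    rw [← Nat.card_eq_fintype_card, hk] at h2
    rw [coeff_map]
    exact h2
  have h2 := eval₂_comp (iterateFrobenius K p n) z r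
  rw [← eval_map, h1] at h2
  exact h2.symm

theorem coef_map (w : MvPolynomial ι k) : Coef k (map k.subtype w) := fun s => by
  rw [coeff_map]; exact (coeff s w).2

end frob

theorem fst {K L ι : Type} [Field K] [Field L] [Algebra K L] [Fintype ι] [Nonempty ι]
    (p n : ℕ) [Fact p.Prime] [CharP K p] {k : Subfield K} (hk : Nat.card k = p ^ n) {y : ι → L}
    {a : ℕ} {g : Fin a → MvPolynomial ι K} (hg : Gens y g) (hk' : ∀ i, Coef k (g i)) {m : ℕ}
    {e : MvPolynomial ι K} {v : Place K L} (hv : GC y m e v) (he : Coef k e) :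
    FSt K (bar v y) (p ^ n) := by
  have hQ : p ^ n ≠ 0 := pow_ne_zero _ (Fact.out : p.Prime).ne_zero
  have h1 : ∀ z : ι → K, OnV y z ↔ ∀ i, eval z (g i) = 0 := fun z => by
    refine ⟨fun h i => ?_, fun h d r hr h0 => ?_⟩
    · obtain ⟨d, h1, h2⟩ := hg.1 i
      exact h d _ h1 h2
    · refine (Ideal.span_le (I := RingHom.ker (eval z))).2 ?_ (hg.2 d r hr h0)
      rintro _ ⟨i, rfl⟩
      exact h i
  have h2 : ∀ z : ι → K, z ≠ 0 →
      (OnV (bar v y) z ↔ (∀ i, eval z (g i) = 0) ∧ eval z e = 0) := fun z hz => by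
    rw [← on_mk hz, hv.on, on_mk hz, h1, eval_mk_eq_zero hv.good.1]
  intro z
  by_cases hz : z = 0
  · simp only [hz, Pi.zero_apply, zero_pow hQ]
    rfl
  · rw [h2 z hz, h2 _ fun h => hz (funext fun i => (pow_eq_zero_iff hQ).1 (congrFun h i))]
    simp only [eval_pow p n hk (hk' _), eval_pow p n hk he, pow_eq_zero_iff hQ]

end SPLIT

open SPLIT in
theorem stSPLIT (hG : St_GENP) (hP : St_PCNT) (hC : St_CM1) (hL : St_LOC2) : St_SPLIT := by
  intro p _ K L ι _ _ _ _ _ _ _ y hy n g hg m h hm
  obtain ⟨C₁, h₁⟩ := hP (m * h)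
  obtain ⟨C₂, h₂⟩ := hG K L ι y hy m hm
  refine ⟨C₁ + (m * h).factorial * C₂ + 2 * h, fun s k hk hk' e v hv he hh => ?_⟩
  have hq : 0 < p ^ s := pow_pos (Fact.out : p.Prime).pos _
  have : Finite k := Nat.finite_of_card_ne_zero (hk ▸ by positivity)
  have := Fintype.ofFinite k
  have hη := hL.crv K L ι y hy v hv.cur
  have hk1 : Fintype.card k = (p ^ s) ^ 2 := by rw [← hk, Nat.card_eq_fintype_card]
  refine ⟨(rat_le hC hη hh k).trans ?_, fun Y hY hY' => ?_⟩
  · rw [hk1]
    exact Nat.cast_le.2 (Nat.mul_le_mul_right _ (by omega))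
  have hF : FSt K (bar v y) ((p ^ s) ^ 2) := by
    rw [← pow_mul] at hk ⊢
    exact fst p _ hk hg hk' hv he
  have h3 := count (φ := k.subtype) (x := fun a : Y => a.1)
    (c := fun a i => ⟨_, (hY' a a.2).2 i (ix a.1)⟩) (m := m) (fun _ _ => rfl) Subtype.val_injective
    (by rw [Fintype.card_coe]; omega) (Sp (bar v y) k (m * h)) (GPen (bar v y) m Y)
    (m * h - Y.card).factorial (Nat.factorial_pos _) (C₁ * p ^ s) (by positivity) C₂
    (fun w₁ w₂ h1 h2 h3 h4 => by
      have h5 := h₁ p s K _ ι _ hη (fun P => (hv.br P).sm) k hk hF m h hm hh rfl Y hY hY' _ _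
        (h1.map _) (h2.map _) (coef_map w₁) (coef_map w₂) (fun x hx => h3 ⟨x, hx⟩) h4
      have h6 : {a : K | a ∈ k ∧ Sp (bar v y) k (m * h) (map k.subtype w₁ + a • map k.subtype w₂)} =
          k.subtype '' (↑({a : k | Sp (bar v y) k (m * h)
            (map k.subtype w₁ + k.subtype a • map k.subtype w₂)} : Finset k)) := by
        ext a
        simp only [coe_filter, mem_univ, true_and, Set.mem_image, Set.mem_ofPred_eq]
        exact ⟨fun h => ⟨⟨a, h.1⟩, h.2, rfl⟩, fun ⟨b, h1, h2⟩ => h2 ▸ ⟨b.2, h1⟩⟩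
      rw [h6, Set.ncard_image_of_injective _ k.subtype.injective, Set.ncard_coe_finset] at h5
      rw [hk1]
      exact_mod_cast h5)
    (fun J _ u h1 h2 => h₂ e v hv Y hY J u h1 fun w hw h0 => h2 w hw fun a => h0 a a.2)
  simp only [hk1, Fintype.card_coe, Subtype.forall, Nat.cast_pow] at h3
  have h4 : ((m * h - Y.card).factorial : ℚ) ≤ (m * h).factorial :=
    Nat.cast_le.2 (Nat.factorial_le (Nat.sub_le _ _))
  have h5 : (1 : ℚ) ≤ p ^ s := by exact_mod_cast hq
  refine le_of_mul_le_mul_left ?_ (lt_of_lt_of_le one_pos h5)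
  refine (le_of_eq (by ring)).trans (h3.trans ?_)
  rw [← mul_assoc]
  refine mul_le_mul_of_nonneg_right ?_ (by positivity)
  push_cast
  have h6 : ((m * h - Y.card).factorial * C₂ : ℚ) ≤ p ^ s * ((m * h).factorial * C₂) :=
    (mul_le_mul_of_nonneg_right h4 (by positivity)).trans (le_mul_of_one_le_left (by positivity) h5)
  have h7 : (0 : ℚ) ≤ p ^ s * (2 * h) := by positivity
  linarith

end Pool.Agent.Lib.PK1
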